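import Mathlib

/-! The linear algebra of the equation (P l)' = e1 h + e h1. -/

namespace Pool.Agent.H638S

open Polynomial

theorem lin_form (l : ℂ[X]) (hl : l.natDegree ≤ 1) (c : ℂ) :
    l = C (l.eval c) + C (l.coeff 1) * (X - C c) := by
  conv_lhs => rw [eq_X_add_C_of_natDegree_le_one hl]
  conv_rhs => rw [eq_X_add_C_of_natDegree_le_one hl]
  simp only [eval_add, eval_mul, eval_C, eval_X, coeff_add, coeff_C_mul, coeff_X_one, mul_one,
    coeff_C_succ, add_zero, C_add, C_mul]
  ring

theorem lin_deriv (l : ℂ[X]) (hl : l.natDegree ≤ 1) : derivative l = C (l.coeff 1) := by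
  conv_lhs => rw [eq_X_add_C_of_natDegree_le_one hl]
  simp

/-- combination of two linear polynomials proportional to a third -/
theorem lin_comb (l0 l1 l2 : ℂ[X]) (h0 : l0 ≠ 0) (hd0 : l0.natDegree ≤ 1) (hd1 : l1.natDegree ≤ 1)
    (hd2 : l2.natDegree ≤ 1) :
    ∃ a b s : ℂ, (a ≠ 0 ∨ b ≠ 0) ∧ C a * l1 + C b * l2 = C s * l0 := by
  have f0 := eq_X_add_C_of_natDegree_le_one hd0
  have f1 := eq_X_add_C_of_natDegree_le_one hd1
  have f2 := eq_X_add_C_of_natDegree_le_one hd2
  -- linear functional killing l0
  set A := l0.coeff 0 with hA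
  set Bc := l0.coeff 1 with hB
  have hAB : A ≠ 0 ∨ Bc ≠ 0 := by
    by_contra hcon
    push Not at hcon
    apply h0; rw [f0, hcon.1, hcon.2]; simp
  -- N l = A * l.coeff 1 - Bc * l.coeff 0 ; N l = 0 -> l is a multiple of l0
  have hmul : ∀ l : ℂ[X], l.natDegree ≤ 1 → A * l.coeff 1 - Bc * l.coeff 0 = 0 →
      ∃ s : ℂ, l = C s * l0 := by
    intro l hl hN
    have f := eq_X_add_C_of_natDegree_le_one hl
    obtain ⟨s, hs0, hs1⟩ : ∃ s : ℂ, l.coeff 0 = s * A ∧ l.coeff 1 = s * Bc := by
      rcases hAB with h | h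
      · exact ⟨l.coeff 0 / A, by field_simp, by field_simp; linear_combination hN⟩
      · exact ⟨l.coeff 1 / Bc, by field_simp; linear_combination -hN, by field_simp⟩
    refine ⟨s, ?_⟩
    rw [f0, f, hs0, hs1]
    simp only [C_mul]; ring
  set N1 := A * l1.coeff 1 - Bc * l1.coeff 0 with hN1
  set N2 := A * l2.coeff 1 - Bc * l2.coeff 0 with hN2
  have hdeg : ∀ a b : ℂ, (C a * l1 + C b * l2).natDegree ≤ 1 := by
    intro a b
    refine (natDegree_add_le _ _).trans (max_le ?_ ?_)
    · exact (natDegree_C_mul_le _ _).trans hd1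
    · exact (natDegree_C_mul_le _ _).trans hd2
  by_cases hz : N1 = 0
  · obtain ⟨s, hs⟩ := hmul l1 hd1 hz
    exact ⟨1, 0, s, Or.inl one_ne_zero, by rw [← hs]; simp⟩
  · obtain ⟨s, hs⟩ := hmul (C N2 * l1 + C (-N1) * l2) (hdeg _ _) (by
      simp only [coeff_add, coeff_C_mul]; rw [hN1, hN2]; ring)
    exact ⟨N2, -N1, s, Or.inr (neg_ne_zero.2 hz), hs⟩

theorem common_root (e h : ℂ[X]) (hn : ¬ IsCoprime e h) : ∃ c, e.eval c = 0 ∧ h.eval c = 0 := by
  by_contra hcon
  push Not at hcon
  apply hn
  rw [Polynomial.isCoprime_iff_aeval_ne_zero_of_isAlgClosed ℂ ℂ]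
  intro a
  by_cases ha : e.eval a = 0
  · right; simpa using hcon a ha
  · left; simpa using ha

/-- core statement -/
theorem core (P e h : ℂ[X]) (r m : ℕ) (ε : ℂ) (hε : ε ≠ 0) (l0 : ℂ[X]) (hrm : 1 ≤ r + m)
    (hP : P.natDegree = r + m) (hsep : ∀ c, P.eval c = 0 → (derivative P).eval c = 0 → False)
    (hh0 : h ≠ 0) (he0 : e ≠ 0) (hhd : h.natDegree ≤ r) (hed : e.natDegree ≤ m)
    (hl0 : l0 ≠ 0) (hl0d : l0.natDegree ≤ 1)
    (hW : derivative (P * l0) = C ε * (e * h))
    (htwo : ∀ c c' : ℂ, ((X - C c) * (X - C c')) ^ 2 ∣ derivative (P * l0) → False)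
    (e1 h1 l1 e2 h2 l2 : ℂ[X])
    (hh1 : h1.natDegree ≤ r) (hh2 : h2.natDegree ≤ r) (he1 : e1.natDegree ≤ m)
    (he2 : e2.natDegree ≤ m) (hl1 : l1.natDegree ≤ 1) (hl2 : l2.natDegree ≤ 1)
    (hW1 : derivative (P * l1) = C ε * (e1 * h + e * h1))
    (hW2 : derivative (P * l2) = C ε * (e2 * h + e * h2)) :
    ∃ a b s κ : ℂ, (a ≠ 0 ∨ b ≠ 0) ∧ C a * h1 + C b * h2 = C κ * h ∧
      C a * e1 + C b * e2 - C s * e = - (C κ * e) ∧ C a * l1 + C b * l2 = C s * l0 := by
  have hP0 : P ≠ 0 := by intro h0; rw [h0] at hP; simp at hP; omega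
  have hdeg : r + m ≤ e.natDegree + h.natDegree + 1 := by
    have a1 : (P * l0).natDegree = r + m + l0.natDegree := by
      rw [natDegree_mul hP0 hl0, hP]
    have a2 : (derivative (P * l0)).natDegree = (P * l0).natDegree - 1 :=
      natDegree_eq_of_degree_eq_some (degree_derivative (p := P * l0) (by omega))
    have a3 : (C ε * (e * h)).natDegree = e.natDegree + h.natDegree := by
      rw [natDegree_C_mul hε, natDegree_mul he0 hh0]
    rw [hW, a3] at a2
    omega
  have hCε : (C ε : ℂ[X]) ≠ 0 := C_ne_zero.2 hε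
  by_cases hcop : IsCoprime e h
  · obtain ⟨a, b, s, hab, hs⟩ := lin_comb l0 l1 l2 hl0 hl0d hl1 hl2
    set E := C a * e1 + C b * e2 - C s * e with hE
    set H := C a * h1 + C b * h2 with hH
    have key : E * h + e * H = 0 := by
      have : C ε * (E * h + e * H) = 0 := by
        have : C ε * (E * h + e * H) = C a * derivative (P * l1) + C b * derivative (P * l2)
            - C s * derivative (P * l0) := by
          rw [hW1, hW2, hW, hE, hH]; ring
        rw [this, ← derivative_C_mul, ← derivative_C_mul, ← derivative_C_mul, ← derivative_add,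
          ← derivative_sub]
        have : C a * (P * l1) + C b * (P * l2) - C s * (P * l0)
            = P * ((C a * l1 + C b * l2) - C s * l0) := by ring
        rw [this, hs, sub_self, mul_zero, derivative_zero]
      exact (mul_eq_zero.1 this).resolve_left hCε
    have hdvd : h ∣ H := by
      have : h ∣ e * H := ⟨-E, by linear_combination key⟩
      exact hcop.symm.dvd_of_dvd_mul_left this
    obtain ⟨k, hk⟩ := hdvd
    have hEk : E = - (k * e) := by
      have : h * (E + k * e) = 0 := by rw [hk] at key; linear_combination key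
      have := (mul_eq_zero.1 this).resolve_left hh0
      linear_combination this
    have hkd : k.natDegree = 0 := by
      by_cases hk0 : k = 0
      · rw [hk0]; simp
      have d1 : (h * k).natDegree = h.natDegree + k.natDegree := natDegree_mul hh0 hk0
      have d2 : (h * k).natDegree ≤ r := by
        rw [← hk, hH]
        exact (natDegree_add_le _ _).trans (max_le ((natDegree_C_mul_le _ _).trans hh1)
          ((natDegree_C_mul_le _ _).trans hh2))
      have d3 : (k * e).natDegree = k.natDegree + e.natDegree := natDegree_mul hk0 he0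
      have d4 : (k * e).natDegree ≤ m := by
        have : k * e = - E := by rw [hEk]; ring
        rw [this, natDegree_neg, hE]
        refine (natDegree_sub_le _ _).trans (max_le ?_ ((natDegree_C_mul_le _ _).trans hed))
        exact (natDegree_add_le _ _).trans (max_le ((natDegree_C_mul_le _ _).trans he1)
          ((natDegree_C_mul_le _ _).trans he2))
      omega
    have hkC := eq_C_of_natDegree_eq_zero hkd
    refine ⟨a, b, s, k.coeff 0, hab, ?_, ?_, hs⟩
    · rw [← hkC, ← hH, hk]; ring
    · rw [← hkC, ← hE, hEk]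
  · obtain ⟨c, hec, hhc⟩ := common_root e h hcop
    obtain ⟨e', he'⟩ := dvd_iff_isRoot.2 hec
    obtain ⟨h', hh'⟩ := dvd_iff_isRoot.2 hhc
    have he'0 : e' ≠ 0 := by intro h0; rw [h0, mul_zero] at he'; exact he0 he'
    have hh'0 : h' ≠ 0 := by intro h0; rw [h0, mul_zero] at hh'; exact hh0 hh'
    have hcop' : IsCoprime e' h' := by
      by_contra hn
      obtain ⟨c', hc1, hc2⟩ := common_root e' h' hn
      obtain ⟨e'', he''⟩ := dvd_iff_isRoot.2 hc1
      obtain ⟨h'', hh''⟩ := dvd_iff_isRoot.2 hc2
      apply htwo c c'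
      rw [hW, he', hh', he'', hh'']
      exact ⟨C ε * (e'' * h''), by ring⟩
    have dder : ∀ l : ℂ[X], (derivative (P * l)).eval c
        = (derivative P).eval c * l.eval c + P.eval c * (derivative l).eval c := by
      intro l; rw [derivative_mul]; simp
    have z0 : (derivative P).eval c * l0.eval c + P.eval c * l0.coeff 1 = 0 := by
      have := dder l0
      rw [lin_deriv l0 hl0d, eval_C, hW] at this
      rw [← this]; simp [hec, hhc]
    have prop : ∀ (l E1 H1 : ℂ[X]), l.natDegree ≤ 1 →
        derivative (P * l) = C ε * (E1 * h + e * H1) → ∃ s : ℂ, l = C s * l0 := by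
      intro l E1 H1 hl hWl
      have z : (derivative P).eval c * l.eval c + P.eval c * l.coeff 1 = 0 := by
        have := dder l
        rw [lin_deriv l hl, eval_C, hWl] at this
        rw [← this]; simp [hec, hhc]
      have cross : l.eval c * l0.coeff 1 - l0.eval c * l.coeff 1 = 0 := by
        by_cases hPc : P.eval c = 0
        · have hP'c : (derivative P).eval c ≠ 0 := fun h0 => hsep c hPc h0
          have : (derivative P).eval c * (l.eval c * l0.coeff 1 - l0.eval c * l.coeff 1) = 0 := by
            linear_combination l0.coeff 1 * z - l.coeff 1 * z0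
          exact (mul_eq_zero.1 this).resolve_left hP'c
        · have : P.eval c * (l.eval c * l0.coeff 1 - l0.eval c * l.coeff 1) = 0 := by
            linear_combination l.eval c * z0 - l0.eval c * z
          exact (mul_eq_zero.1 this).resolve_left hPc
      have f := lin_form l hl c
      have f0 := lin_form l0 hl0d c
      by_cases hα : l0.eval c = 0
      · have hβ : l0.coeff 1 ≠ 0 := by
          intro h0; apply hl0; rw [f0, hα, h0]; simp
        have hle : l.eval c = 0 := by
          rw [hα] at cross; simp at cross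
          rcases cross with h | h
          · exact h
          · exact absurd h hβ
        refine ⟨l.coeff 1 / l0.coeff 1, ?_⟩
        rw [f0, hα]
        conv_lhs => rw [f, hle]
        have : (C (l.coeff 1) : ℂ[X]) = C (l.coeff 1 / l0.coeff 1) * C (l0.coeff 1) := by
          rw [← C_mul]; congr 1; field_simp
        rw [this]; simp; ring
      · refine ⟨l.eval c / l0.eval c, ?_⟩
        have e1' : l.coeff 1 = l.eval c / l0.eval c * l0.coeff 1 := by
          field_simp; linear_combination -cross
        have e2' : l.eval c = l.eval c / l0.eval c * l0.eval c := by field_simp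
        rw [f0]
        conv_lhs => rw [f, e1', e2']
        simp only [C_mul, eval_add, eval_mul, eval_C, eval_sub, eval_X, sub_self, mul_zero, add_zero]
        field_simp
        ring_nf
    obtain ⟨s1, hs1⟩ := prop l1 e1 h1 hl1 hW1
    obtain ⟨s2, hs2⟩ := prop l2 e2 h2 hl2 hW2
    have quo : ∀ (l E1 H1 : ℂ[X]) (s : ℂ), l = C s * l0 → E1.natDegree ≤ m → H1.natDegree ≤ r →
        derivative (P * l) = C ε * (E1 * h + e * H1) →
        ∃ q : ℂ[X], q.natDegree ≤ 1 ∧ H1 = h' * q ∧ E1 - C s * e = - (e' * q) := by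
      intro l E1 H1 s hs hE1 hH1 hWl
      have key : (E1 - C s * e) * h' + e' * H1 = 0 := by
        have k1 : C ε * ((X - C c) * ((E1 - C s * e) * h' + e' * H1)) = 0 := by
          have : C ε * ((X - C c) * ((E1 - C s * e) * h' + e' * H1))
              = C ε * (E1 * h + e * H1) - C s * (C ε * (e * h)) := by
            rw [he', hh']; ring
          rw [this, ← hWl, ← hW, hs, ← derivative_C_mul]
          have : P * (C s * l0) = C s * (P * l0) := by ring
          rw [this, sub_self]
        have k2 := (mul_eq_zero.1 k1).resolve_left hCε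
        exact (mul_eq_zero.1 k2).resolve_left (X_sub_C_ne_zero c)
      have hdvd : h' ∣ H1 := by
        have : h' ∣ e' * H1 := ⟨-(E1 - C s * e), by linear_combination key⟩
        exact hcop'.symm.dvd_of_dvd_mul_left this
      obtain ⟨q, hq⟩ := hdvd
      have hE : E1 - C s * e = - (e' * q) := by
        have : h' * (E1 - C s * e + e' * q) = 0 := by rw [hq] at key; linear_combination key
        have := (mul_eq_zero.1 this).resolve_left hh'0
        linear_combination this
      refine ⟨q, ?_, hq, hE⟩
      by_cases hq0 : q = 0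
      · rw [hq0]; simp
      have d1 : (h' * q).natDegree = h'.natDegree + q.natDegree := natDegree_mul hh'0 hq0
      have d2 : (h' * q).natDegree ≤ r := by rw [← hq]; exact hH1
      have d3 : (e' * q).natDegree = e'.natDegree + q.natDegree := natDegree_mul he'0 hq0
      have d4 : (e' * q).natDegree ≤ m := by
        have : e' * q = - (E1 - C s * e) := by rw [hE]; ring
        rw [this, natDegree_neg]
        exact (natDegree_sub_le _ _).trans (max_le hE1 ((natDegree_C_mul_le _ _).trans hed))
      have d5 : e.natDegree = 1 + e'.natDegree := by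
        rw [he', natDegree_mul (X_sub_C_ne_zero _) he'0]; simp
      have d6 : h.natDegree = 1 + h'.natDegree := by
        rw [hh', natDegree_mul (X_sub_C_ne_zero _) hh'0]; simp
      omega
    obtain ⟨q1, hq1d, hq1, hE1⟩ := quo l1 e1 h1 s1 hs1 he1 hh1 hW1
    obtain ⟨q2, hq2d, hq2, hE2⟩ := quo l2 e2 h2 s2 hs2 he2 hh2 hW2
    have hX1 : (X - C c : ℂ[X]).natDegree ≤ 1 := by simp
    obtain ⟨a, b, k, hab, hk⟩ := lin_comb (X - C c) q1 q2 (X_sub_C_ne_zero c) hX1 hq1d hq2d
    refine ⟨a, b, a * s1 + b * s2, k, hab, ?_, ?_, ?_⟩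
    · rw [hq1, hq2, hh']; linear_combination h' * hk
    · have : C a * e1 + C b * e2 - C (a * s1 + b * s2) * e
          = C a * (e1 - C s1 * e) + C b * (e2 - C s2 * e) := by
        simp only [C_add, C_mul]; ring
      rw [this, hE1, hE2, he']
      linear_combination -e' * hk
    · rw [hs1, hs2]; simp only [C_add, C_mul]; ring

end Pool.Agent.H638S
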