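import Pool.Agent.H638S.Stmt

/-! Working forms of the definitions of Stmt. -/

namespace Pool.Agent.H638S

open Polynomial Module

/-- V is a point of S, in the working form. -/
structure InS (r d : ℕ) (x : Fin (d - 1) → ℝ) (V : Submodule ℂ (Gam d)) : Prop where
  dim : Module.finrank ℂ V = r + 1
  atInf : r ≤ Module.finrank ℂ ↥(V ⊓ vanInf d (d - r))
  atFin : ∀ j, 1 ≤ Module.finrank ℂ ↥(V ⊓ vanAt d (x j) (r + 1))

/-- The tangent vectors along F. -/
noncomputable def tangentTo {d : ℕ} (F V : Submodule ℂ (Gam d)) :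
    Submodule ℂ (V →ₗ[ℂ] (Gam d ⧸ V)) where
  carrier := {φ | ∀ v : V, (v : Gam d) ∈ F → φ v ∈ F.map V.mkQ}
  add_mem' := fun ha hb v hv => by
    rw [LinearMap.add_apply]; exact Submodule.add_mem _ (ha v hv) (hb v hv)
  zero_mem' := fun v _ => by rw [LinearMap.zero_apply]; exact Submodule.zero_mem _
  smul_mem' := fun c φ h v hv => by
    rw [LinearMap.smul_apply]; exact Submodule.smul_mem _ _ (h v hv)

/-- The Zariski tangent space of S at V, in the working form. -/
noncomputable def tangentS (r d : ℕ) (x : Fin (d - 1) → ℝ) (V : Submodule ℂ (Gam d)) :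
    Submodule ℂ (V →ₗ[ℂ] (Gam d ⧸ V)) :=
  tangentTo (vanInf d (d - r)) V ⊓ ⨅ j, tangentTo (vanAt d (x j) (r + 1)) V

end Pool.Agent.H638S
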