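import Pool.Agent.H301X.FR.Stmts

/-! Task Kappa of the project on the length of the Frenet frame (helper638). -/

set_option autoImplicit false

open Real InnerProductSpace MeasureTheory Set
open scoped ContDiff RealInnerProductSpace

namespace Pool.Agent.H638S.FR

open Pool.Agent.H110R3.Mu Pool.Agent.H301X.FR

lemma gs_eq {n : ℕ} {γ : ℝ → EuclideanSpace ℝ (Fin n)} (hN : IsNondegenerate γ) (t : ℝ)
    (i : Fin n) : gramSchmidt ℝ (fun k : Fin n => iteratedDeriv (k + 1) γ t) i =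
      ‖gramSchmidt ℝ (fun k : Fin n => iteratedDeriv (k + 1) γ t) i‖ • frenet γ t i := by
  have h0 : gramSchmidt ℝ (fun k : Fin n => iteratedDeriv (k + 1) γ t) i ≠ 0 :=
    gramSchmidt_ne_zero i (hN t)
  have h1 : frenet γ t i =
      (‖gramSchmidt ℝ (fun k : Fin n => iteratedDeriv (k + 1) γ t) i‖ : ℝ)⁻¹ •
        gramSchmidt ℝ (fun k : Fin n => iteratedDeriv (k + 1) γ t) i := rfl
  rw [h1, smul_smul, mul_inv_cancel₀ (norm_ne_zero_iff.2 h0), one_smul]

lemma f1_eq {n : ℕ} (h3 : 3 ≤ n) {γ : ℝ → EuclideanSpace ℝ (Fin n)} (hN : IsNondegenerate γ)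
    (t : ℝ) : ∃ b c : ℝ, iteratedDeriv 2 γ t = b • frenet γ t ⟨0, by omega⟩ +
      c • frenet γ t ⟨1, by omega⟩ := by
  have h1 := gramSchmidt_def'' ℝ (fun k : Fin n => iteratedDeriv (k + 1) γ t) ⟨1, by omega⟩
  have hI : Finset.Iio (⟨1, by omega⟩ : Fin n) = {⟨0, by omega⟩} := by
    ext i
    rw [Finset.mem_Iio, Finset.mem_singleton, Fin.lt_def, Fin.ext_iff]
    simp
  rw [hI, Finset.sum_singleton, gs_eq hN t ⟨1, by omega⟩, gs_eq hN t ⟨0, by omega⟩,
    smul_smul] at h1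
  exact ⟨_, _, h1.trans (add_comm _ _)⟩

lemma f2_ne {n : ℕ} (h3 : 3 ≤ n) {γ : ℝ → EuclideanSpace ℝ (Fin n)} (hN : IsNondegenerate γ)
    (t : ℝ) : ⟪iteratedDeriv 3 γ t, frenet γ t ⟨2, by omega⟩⟫ ≠ 0 := by
  have h1 := gramSchmidt_def'' ℝ (fun k : Fin n => iteratedDeriv (k + 1) γ t) ⟨2, by omega⟩
  have h0 : gramSchmidt ℝ (fun k : Fin n => iteratedDeriv (k + 1) γ t) ⟨2, by omega⟩ ≠ 0 :=
    gramSchmidt_ne_zero _ (hN t)
  have h2 : ⟪iteratedDeriv 3 γ t,
      gramSchmidt ℝ (fun k : Fin n => iteratedDeriv (k + 1) γ t) ⟨2, by omega⟩⟫ ≠ 0 := by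
    have h3 : iteratedDeriv 3 γ t = _ := h1
    rw [h3, inner_add_left, sum_inner, Finset.sum_eq_zero, add_zero]
    · exact inner_self_ne_zero.2 h0
    · intro i hi
      rw [inner_smul_left, gramSchmidt_orthogonal ℝ _ (ne_of_lt (Finset.mem_Iio.1 hi)), mul_zero]
  intro h4
  rw [gs_eq hN t ⟨2, by omega⟩, inner_smul_right, h4, mul_zero] at h2
  exact h2 rfl

theorem taskKappa : TaskKappa := by
  intro hS hF n h3 γ hγ hN t
  have horth : ∀ s, Orthonormal ℝ (frenet γ s) := fun s => gramSchmidtNormed_orthonormal (hN s)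
  obtain ⟨hpos, hfirst⟩ := hF n (by omega) γ hγ hN
  set i0 : Fin n := ⟨0, by omega⟩ with hi0
  set i1 : Fin n := ⟨1, by omega⟩ with hi1
  set i2 : Fin n := ⟨2, by omega⟩ with hi2
  have h01 : i0 ≠ i1 := by rw [hi0, hi1, Ne, Fin.ext_iff]; simp
  have h02 : i0 ≠ i2 := by rw [hi0, hi2, Ne, Fin.ext_iff]; simp
  have h12 : i1 ≠ i2 := by rw [hi1, hi2, Ne, Fin.ext_iff]; simp
  have hd : ∀ (k : ℕ) (s : ℝ), HasDerivAt (iteratedDeriv k γ) (iteratedDeriv (k + 1) γ s) s := by
    intro k s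
    rw [iteratedDeriv_succ]
    exact (hγ.differentiable_iteratedDeriv k (by exact_mod_cast ENat.natCast_lt_top k)
      s).hasDerivAt
  have he : ∀ (k : Fin n) (s : ℝ),
      HasDerivAt (fun s => frenet γ s k) (deriv (fun s => frenet γ s k) s) s := by
    intro k s
    exact (((hS n γ hγ hN k).differentiable (by simp)) s).hasDerivAt
  set D : Fin n → EuclideanSpace ℝ (Fin n) := fun k => deriv (fun s => frenet γ s k) t with hD
  -- derivatives of the relations
  have hrel : ∀ i j, ⟪D i, frenet γ t j⟫ + ⟪frenet γ t i, D j⟫ = 0 := by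
    intro i j
    have h1 := (he i t).inner ℝ (he j t)
    have h2 : (fun s => ⟪frenet γ s i, frenet γ s j⟫) = fun _ => (if i = j then (1 : ℝ) else 0) := by
      funext s
      exact (orthonormal_iff_ite.1 (horth s)) i j
    rw [h2] at h1
    have h3 := h1.unique (hasDerivAt_const t _)
    rw [add_comm]; exact h3
  have hone : ∀ i, ⟪frenet γ t i, frenet γ t i⟫ = 1 := by
    intro i; rw [real_inner_self_eq_norm_sq, (horth t).1 i]; norm_num
  have h00 : ⟪D i0, frenet γ t i0⟫ = 0 := by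
    have h1 := hrel i0 i0
    rw [real_inner_comm (D i0)] at h1
    linarith
  -- the derivative of ρ e_0 = γ'
  obtain ⟨b, c, hbc⟩ := f1_eq h3 hN t
  have hρ : 0 < ‖deriv γ t‖ := hpos t
  have hdγ : HasDerivAt (deriv γ) (iteratedDeriv 2 γ t) t := by
    have := hd 1 t
    rwa [iteratedDeriv_one] at this
  obtain ⟨r, hr⟩ : ∃ r, HasDerivAt (fun s => ‖deriv γ s‖) r t :=
    ⟨_, (hdγ.differentiableAt.norm ℝ (norm_pos_iff.1 hρ)).hasDerivAt⟩
  have hA : ‖deriv γ t‖ • D i0 + r • frenet γ t i0 = iteratedDeriv 2 γ t := by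
    have h1 := hr.smul (he i0 t)
    have h2 : (fun s => ‖deriv γ s‖ • frenet γ s i0) = deriv γ := funext hfirst
    have h4 : HasDerivAt (fun s => ‖deriv γ s‖ • frenet γ s i0)
        (‖deriv γ t‖ • D i0 + r • frenet γ t i0) t := h1
    rw [h2] at h4
    exact h4.unique hdγ
  have hρD : ‖deriv γ t‖ • D i0 = (b - r) • frenet γ t i0 + c • frenet γ t i1 := by
    rw [sub_smul]
    rw [hbc] at hA
    rw [← hi0, ← hi1] at hA
    rw [sub_add_eq_add_sub, ← hA]
    abel
  have hbr : b - r = 0 := by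
    have h1 := congrArg (fun v => ⟪v, frenet γ t i0⟫) hρD
    simp only [inner_add_left, inner_smul_left] at h1
    rw [h00, hone, (horth t).2 h01.symm] at h1
    simp at h1
    linarith
  rw [hbr, zero_smul, zero_add] at hρD
  have hc1 : ‖deriv γ t‖ * ⟪D i0, frenet γ t i1⟫ = c := by
    have h1 := congrArg (fun v => ⟪v, frenet γ t i1⟫) hρD
    simp only [inner_smul_left] at h1
    rw [hone] at h1
    simpa using h1
  have hc2 : ‖deriv γ t‖ * ‖D i0‖ = |c| := by
    have h1 := congrArg (fun v => ‖v‖) hρD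
    simp only [norm_smul, (horth t).1, mul_one, Real.norm_eq_abs] at h1
    rw [abs_of_pos hρ] at h1
    exact h1
  have hk0 : kappa γ 0 t = ⟪D i0, frenet γ t i1⟫ / ‖deriv γ t‖ := by
    unfold kappa
    rw [dif_pos (by omega : 0 + 1 < n)]
  have hk1 : kappa γ 1 t = ⟪D i1, frenet γ t i2⟫ / ‖deriv γ t‖ := by
    unfold kappa
    rw [dif_pos (by omega : 1 + 1 < n)]
  constructor
  · change ‖D i0‖ = _
    rw [hk0, abs_div, abs_of_pos hρ, div_mul_cancel₀ _ hρ.ne']
    have h1 : ‖deriv γ t‖ * ‖D i0‖ = ‖deriv γ t‖ * |⟪D i0, frenet γ t i1⟫| := by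
      rw [hc2, ← hc1, abs_mul, abs_of_pos hρ]
    exact mul_left_cancel₀ hρ.ne' h1
  · rw [hk1]
    refine div_ne_zero ?_ hρ.ne'
    intro h0
    -- the derivative of <f_1, e_2> = 0
    have h1 := (hd 2 t).inner ℝ (he i2 t)
    have h2 : (fun s => ⟪iteratedDeriv 2 γ s, frenet γ s i2⟫) = fun _ => (0 : ℝ) := by
      funext s
      obtain ⟨b', c', hbc'⟩ := f1_eq h3 hN s
      rw [hbc', inner_add_left, inner_smul_left, inner_smul_left, ← hi0, ← hi1,
        (horth s).2 h02, (horth s).2 h12]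
      simp
    rw [h2] at h1
    have h4 := h1.unique (hasDerivAt_const t _)
    have h5 : ⟪iteratedDeriv 2 γ t, D i2⟫ = 0 := by
      rw [hbc, inner_add_left, inner_smul_left, inner_smul_left, ← hi0, ← hi1]
      have e1 : ⟪frenet γ t i0, D i2⟫ = 0 := by
        have h6 := hrel i0 i2
        have h7 : ⟪D i0, frenet γ t i2⟫ = 0 := by
          have h8 := congrArg (fun v => ⟪v, frenet γ t i2⟫) hρD
          simp only [inner_smul_left] at h8
          rw [(horth t).2 h12] at h8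
          simp at h8
          rcases h8 with h8 | h8
          · exact absurd h8 (norm_pos_iff.1 hρ)
          · exact h8
        linarith
      have e2 : ⟪frenet γ t i1, D i2⟫ = 0 := by
        have h6 := hrel i1 i2
        linarith
      rw [e1, e2]; simp
    have h9 := f2_ne h3 hN t
    apply h9
    have h10 : ⟪iteratedDeriv 2 γ t, D i2⟫ + ⟪iteratedDeriv 3 γ t, frenet γ t i2⟫ = 0 := h4
    rw [h5, zero_add] at h10
    exact h10

end Pool.Agent.H638S.FR
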