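import Pool.Agent.H638S.Setup

/-! The tangent space has dimension at least 1. -/

namespace Pool.Agent.H638S

open Polynomial Module

theorem finrank_map_mkQ_add {K M : Type*} [Field K] [AddCommGroup M] [Module K M]
    [FiniteDimensional K M] (V F : Submodule K M) :
    finrank K ↥(F.map V.mkQ) + finrank K ↥(V ⊓ F) = finrank K F := by
  have h1 := LinearMap.finrank_range_add_finrank_ker (V.mkQ.domRestrict F)
  rw [LinearMap.range_domRestrict, LinearMap.ker_domRestrict, Submodule.ker_mkQ] at h1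
  have h2 : finrank K ↥(V.comap F.subtype) = finrank K ↥(V ⊓ F) := by
    have e : (V.comap F.subtype).map F.subtype = V ⊓ F := by
      rw [Submodule.map_comap_subtype, inf_comm]
    rw [← e]
    exact ((Submodule.equivMapOfInjective F.subtype F.injective_subtype _).finrank_eq)
  rw [h2] at h1
  exact h1

theorem exists_tangent_aux {K H : Type*} [Field K] [AddCommGroup H] [Module K H]
    [FiniteDimensional K H] {ι : Type*} [Fintype ι] (A B : ι → Type*)
    [∀ i, AddCommGroup (A i)] [∀ i, Module K (A i)] [∀ i, FiniteDimensional K (A i)]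
    [∀ i, AddCommGroup (B i)] [∀ i, Module K (B i)] [∀ i, FiniteDimensional K (B i)]
    (L : ∀ i, H →ₗ[K] (A i →ₗ[K] B i))
    (h : ∑ i, finrank K (A i) * finrank K (B i) < finrank K H) :
    ∃ φ : H, φ ≠ 0 ∧ ∀ i, L i φ = 0 := by
  have hlt : finrank K (∀ i, A i →ₗ[K] B i) < finrank K H := by
    rw [Module.finrank_pi_fintype]
    refine lt_of_le_of_lt (le_of_eq ?_) h
    exact Finset.sum_congr rfl (fun i _ => Module.finrank_linearMap K K (A i) (B i))
  have hker : LinearMap.ker (LinearMap.pi L) ≠ ⊥ := LinearMap.ker_ne_bot_of_finrank_lt hlt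
  obtain ⟨φ, hφ, hφ0⟩ := Submodule.exists_mem_ne_zero_of_ne_bot hker
  exact ⟨φ, hφ0, fun i => congrFun (LinearMap.mem_ker.1 hφ) i⟩

theorem exists_tangent {K M : Type*} [Field K] [AddCommGroup M] [Module K M]
    [FiniteDimensional K M] (V : Submodule K M) {ι : Type*} [Fintype ι] (F : ι → Submodule K M)
    (h : ∑ i, finrank K ↥(V ⊓ F i) * finrank K ((M ⧸ V) ⧸ (F i).map V.mkQ) <
      finrank K V * finrank K (M ⧸ V)) :
    ∃ φ : V →ₗ[K] (M ⧸ V), φ ≠ 0 ∧ ∀ i, ∀ v : V, (v : M) ∈ F i → φ v ∈ (F i).map V.mkQ := by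
  have h' : ∑ i, finrank K ↥(V ⊓ F i) * finrank K ((M ⧸ V) ⧸ (F i).map V.mkQ) <
      finrank K (V →ₗ[K] (M ⧸ V)) := by
    rw [Module.finrank_linearMap]; exact h
  obtain ⟨φ, hφ0, hφ⟩ := exists_tangent_aux (K := K) (H := V →ₗ[K] (M ⧸ V))
    (fun i => ↥(V ⊓ F i)) (fun i => (M ⧸ V) ⧸ (F i).map V.mkQ)
    (fun i =>
      { toFun := fun φ => ((F i).map V.mkQ).mkQ ∘ₗ φ ∘ₗ Submodule.inclusion inf_le_left
        map_add' := fun a b => by
          apply LinearMap.ext; intro w
          simp only [LinearMap.comp_apply, LinearMap.add_apply, map_add]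
        map_smul' := fun c a => by
          apply LinearMap.ext; intro w
          simp only [LinearMap.comp_apply, LinearMap.smul_apply, map_smul, RingHom.id_apply] }) h'
  refine ⟨φ, hφ0, fun i v hv => ?_⟩
  have h1 := LinearMap.congr_fun (hφ i) ⟨v.1, v.2, hv⟩
  exact (Submodule.Quotient.mk_eq_zero _).1 h1

theorem finrank_vanAt {d j : ℕ} (hj : j ≤ d) (x : ℝ) :
    d + 1 - j ≤ finrank ℂ (vanAt d x j) := by
  have hmem : ∀ p : degreeLT ℂ (d + 1 - j), (X - C (x : ℂ)) ^ j * (p : ℂ[X]) ∈ Gam d := by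
    intro p
    rw [mem_degLT_iff]
    have hp : (p : ℂ[X]).natDegree ≤ d - j := by
      rw [← mem_degLT_iff, show d - j + 1 = d + 1 - j by omega]; exact p.2
    refine natDegree_mul_le.trans ?_
    rw [natDegree_pow, natDegree_X_sub_C]; omega
  let f : degreeLT ℂ (d + 1 - j) →ₗ[ℂ] Gam d :=
    { toFun := fun p => ⟨(X - C (x : ℂ)) ^ j * (p : ℂ[X]), hmem p⟩
      map_add' := fun a b => by
        apply Subtype.ext
        simp only [Submodule.coe_add, mul_add]
      map_smul' := fun c a => by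
        apply Subtype.ext
        simp only [Submodule.coe_smul, RingHom.id_apply, mul_smul_comm] }
  have hinj : Function.Injective f := by
    intro a b hab
    have h1 : (X - C (x : ℂ)) ^ j * (a : ℂ[X]) = (X - C (x : ℂ)) ^ j * (b : ℂ[X]) :=
      congrArg Subtype.val hab
    exact Subtype.ext (mul_left_cancel₀ (pow_ne_zero _ (X_sub_C_ne_zero _)) h1)
  have hr : LinearMap.range f ≤ vanAt d x j := by
    rintro _ ⟨p, rfl⟩
    exact (mem_vanAt x _).2 (dvd_mul_right _ _)
  have h2 := Submodule.finrank_mono hr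
  rw [LinearMap.finrank_range_of_inj hinj, finrank_degLT] at h2
  exact h2

theorem lower (r d : ℕ) (hr : 1 ≤ r) (hrd : r + 1 ≤ d) (x : Fin (d - 1) → ℝ)
    (V : Submodule ℂ (Gam d)) (hV : InS r d x V) :
    1 ≤ finrank ℂ (tangentS r d x V) := by
  obtain ⟨h, g, -, -, -, -, -, -, -, hfr, -, hfj⟩ := setup r d hr hrd x V hV
  have hΓ : finrank ℂ (Gam d) = d + 1 := finrank_degLT _
  have hQ : finrank ℂ (Gam d ⧸ V) = d - r := by
    have := Submodule.finrank_quotient_add_finrank (R := ℂ) (M := Gam d) V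
    rw [hΓ, hV.dim] at this; omega
  let F : Option (Fin (d - 1)) → Submodule ℂ (Gam d) := fun o =>
    o.elim (vanInf d (d - r)) (fun j => vanAt d (x j) (r + 1))
  have key : ∑ i, finrank ℂ ↥(V ⊓ F i) * finrank ℂ ((Gam d ⧸ V) ⧸ (F i).map V.mkQ) <
      finrank ℂ V * finrank ℂ (Gam d ⧸ V) := by
    rw [Fintype.sum_option]
    have a1 : finrank ℂ ↥(V ⊓ F none) = r := hfr
    have a2 : finrank ℂ ((Gam d ⧸ V) ⧸ (F none).map V.mkQ) = d - r - 1 := by
      have b1 := Submodule.finrank_quotient_add_finrank (R := ℂ) (M := Gam d ⧸ V)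
        ((F none).map V.mkQ)
      have b2 := finrank_map_mkQ_add (K := ℂ) (M := Gam d) V (F none)
      have b3 : finrank ℂ (F none) = r + 1 := finrank_vanInf hrd
      rw [a1, b3] at b2
      rw [hQ] at b1
      omega
    have a3 : ∀ j, finrank ℂ ↥(V ⊓ F (some j)) * finrank ℂ ((Gam d ⧸ V) ⧸ (F (some j)).map V.mkQ)
        ≤ 1 := by
      intro j
      have c0 : finrank ℂ ↥(V ⊓ F (some j)) = 1 := hfj j
      have b1 := Submodule.finrank_quotient_add_finrank (R := ℂ) (M := Gam d ⧸ V)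
        ((F (some j)).map V.mkQ)
      have b2 := finrank_map_mkQ_add (K := ℂ) (M := Gam d) V (F (some j))
      have b3 : d + 1 - (r + 1) ≤ finrank ℂ (F (some j)) := finrank_vanAt (by omega) (x j)
      rw [c0] at b2
      rw [hQ] at b1
      rw [c0, one_mul]
      omega
    have a4 : ∑ j, finrank ℂ ↥(V ⊓ F (some j)) *
        finrank ℂ ((Gam d ⧸ V) ⧸ (F (some j)).map V.mkQ) ≤ d - 1 := by
      refine (Finset.sum_le_sum (fun j _ => a3 j)).trans ?_
      simp
    rw [a1, a2, hV.dim, hQ]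
    obtain ⟨m, rfl⟩ : ∃ m, d = r + 1 + m := ⟨d - (r + 1), by omega⟩
    have e1 : r + 1 + m - r - 1 = m := by omega
    have e2 : r + 1 + m - r = m + 1 := by omega
    have e3 : r + 1 + m - 1 = r + m := by omega
    rw [e1, e2]
    have a5 := a4
    nlinarith [a5, e3]
  obtain ⟨φ, hφ0, hφ⟩ := exists_tangent (K := ℂ) (M := Gam d) V F key
  have hmem : φ ∈ tangentS r d x V := by
    refine ⟨fun v hv => hφ none v hv, ?_⟩
    rw [SetLike.mem_coe, Submodule.mem_iInf]
    exact fun j v hv => hφ (some j) v hv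
  have : tangentS r d x V ≠ ⊥ := by
    intro hb; rw [hb] at hmem; exact hφ0 hmem
  rw [Nat.one_le_iff_ne_zero]
  intro h0
  exact this (Submodule.finrank_eq_zero.1 h0)

end Pool.Agent.H638S
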