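import Pool.Agent.H638S.Setup

/-! The tangent space of S has dimension at most one. -/

namespace Pool.Agent.H638S

open Polynomial Module

theorem exists_fun {K M : Type*} [Field K] [AddCommGroup M] [Module K M] (z : M) (hz : z ≠ 0) :
    ∃ ψ : M →ₗ[K] K, ψ z = 1 := by
  obtain ⟨ψ, hψ⟩ := LinearMap.exists_leftInverse_of_injective (LinearMap.toSpanSingleton K M z)
    (LinearMap.ker_toSpanSingleton K hz)
  refine ⟨ψ, ?_⟩
  have := LinearMap.congr_fun hψ 1
  simpa using this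

theorem exists_kill2 {K M N : Type*} [Field K] [AddCommGroup M] [Module K M] [AddCommGroup N]
    [Module K N] [FiniteDimensional K M] [FiniteDimensional K N]
    (L : (M × K) →ₗ[K] (N × K) →ₗ[K] K)
    (h : finrank K N < finrank K M) : ∃ m : M × K, m ≠ 0 ∧ ∀ n, L m n = 0 :=
  exists_kill L (by rw [finrank_prod, finrank_prod]; omega)

theorem finrank_le_one_of_dep {K M : Type*} [Field K] [AddCommGroup M] [Module K M]
    (T : Submodule K M)
    (h : ∀ φ1 ∈ T, ∀ φ2 ∈ T, ∃ a b : K, (a ≠ 0 ∨ b ≠ 0) ∧ a • φ1 + b • φ2 = 0) :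
    finrank K T ≤ 1 := by
  by_cases hT : T = ⊥
  · rw [hT, finrank_bot]; exact zero_le_one
  · obtain ⟨φ1, h1, h10⟩ := Submodule.exists_mem_ne_zero_of_ne_bot hT
    refine finrank_le_one (⟨φ1, h1⟩ : T) ?_
    rintro ⟨φ2, h2⟩
    obtain ⟨a, b, hab, he⟩ := h φ1 h1 φ2 h2
    have hb : b ≠ 0 := by
      rintro rfl
      rw [zero_smul, add_zero, smul_eq_zero] at he
      rcases he with he | he
      · rcases hab with h' | h'
        · exact h' he
        · exact h' rfl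
      · exact h10 he
    refine ⟨-(b⁻¹ * a), Subtype.ext ?_⟩
    have : φ2 = b⁻¹ • (b • φ2) := by rw [smul_smul, inv_mul_cancel₀ hb, one_smul]
    change -(b⁻¹ * a) • φ1 = φ2
    rw [this, show b • φ2 = - (a • φ1) from by rw [eq_neg_iff_add_eq_zero, add_comm]; exact he,
      smul_neg, smul_smul, neg_smul]

theorem dvd_of_roots {n : ℕ} (x : Fin n → ℝ) (hx : Function.Injective x) (p : ℂ[X])
    (h : ∀ j, p.eval ((x j : ℝ) : ℂ) = 0) : PC x ∣ p := by
  rw [PC]
  apply Finset.prod_dvd_of_coprime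
  · intro i _ j _ hij
    exact isCoprime_X_sub_C_of_isUnit_sub
      (sub_ne_zero.2 (fun e => hij (hx (by exact_mod_cast e)))).isUnit
  · intro j _
    exact dvd_iff_isRoot.2 (h j)

theorem B_natDegree (r d : ℕ) (hrd : r ≤ d) (p h : ℂ[X]) (hp : p.natDegree ≤ d)
    (hh : h.natDegree ≤ r) : (B r p h).natDegree ≤ d := by
  rw [B]
  apply natDegree_sum_le_of_forall_le
  intro i hi
  have hi' : i < r + 1 := Finset.mem_range.1 hi
  refine (natDegree_C_mul_le _ _).trans (natDegree_mul_le.trans ?_)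
  have h1 := natDegree_iterate_derivative p i
  have h2 := natDegree_iterate_derivative h (r - i)
  omega

/-- quotient by P of a polynomial of degree at most d vanishing at the points -/
theorem quot {d : ℕ} (hd : 1 ≤ d) (x : Fin (d - 1) → ℝ) (hx : Function.Injective x) (p : ℂ[X])
    (hp : p.natDegree ≤ d) (h : ∀ j, p.eval ((x j : ℝ) : ℂ) = 0) :
    ∃ l : ℂ[X], l.natDegree ≤ 1 ∧ p = PC x * l := by
  obtain ⟨l, hl⟩ := dvd_of_roots x hx p h
  refine ⟨l, ?_, hl⟩
  by_cases hl0 : l = 0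
  · rw [hl0]; simp
  · have : p.natDegree = (d - 1) + l.natDegree := by
      rw [hl, natDegree_mul (PC_ne x) hl0, PC_natDegree]
    omega

theorem natDegree_le_of_iter (r : ℕ) (p : ℂ[X]) (h : derivative^[r + 1] p = 0) :
    p.natDegree ≤ r := by
  by_contra hcon
  exact iterate_derivative_ne_zero r p (by omega) h

theorem upper (r d : ℕ) (hr : 1 ≤ r) (hrd : r + 1 ≤ d) (x : Fin (d - 1) → ℝ)
    (hx : Function.Injective x) (V : Submodule ℂ (Gam d)) (hV : InS r d x V) :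
    finrank ℂ (tangentS r d x V) ≤ 1 := by
  obtain ⟨h, g, hh0, hhd, hgV, hgd, hU, hconv, hdec, hfr, hsig, _⟩ := setup r d hr hrd x V hV
  set Fi := vanInf d (d - r) with hFi
  -- q0
  have hX : ∀ k : ℂ[X], (X ^ (r - k.natDegree) : ℂ[X]).natDegree ≤ r := by
    intro k; rw [natDegree_X_pow]; omega
  have hXG : ∀ k : ℂ[X], (X ^ (r - k.natDegree) : ℂ[X]) ∈ Gam d := fun k =>
    (mem_degLT_iff d _).2 ((hX k).trans (by omega))
  have hXF : ∀ k : ℂ[X], (⟨_, hXG k⟩ : Gam d) ∈ Fi := fun k => (mem_vanInf hrd _).2 (hX k)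
  have hlam : ev r d h ⟨_, hXG h⟩ ≠ 0 := B_nondeg r h hhd hh0
  obtain ⟨q0, hq0F, hq01⟩ : ∃ q0 : Gam d, q0 ∈ Fi ∧ ev r d h q0 = 1 :=
    ⟨(ev r d h ⟨_, hXG h⟩)⁻¹ • ⟨_, hXG h⟩, Submodule.smul_mem _ _ (hXF h), by
      rw [map_smul, smul_eq_mul, inv_mul_cancel₀ hlam]⟩
  have hq0V : q0 ∉ V := by
    intro hq
    have := hU q0 ⟨hq, hq0F⟩
    rw [hq01] at this; exact one_ne_zero this
  have hz0 : V.mkQ q0 ≠ 0 := by
    intro h0; exact hq0V ((Submodule.Quotient.mk_eq_zero V).1 h0)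
  -- elements of F modulo V
  have hFq : ∀ p ∈ Fi, V.mkQ p = (ev r d h p) • V.mkQ q0 := by
    intro p hp
    have h1 : p - (ev r d h p) • q0 ∈ V := by
      apply hconv
      · exact Submodule.sub_mem _ hp (Submodule.smul_mem _ _ hq0F)
      · rw [map_sub, map_smul, hq01, smul_eq_mul, mul_one, sub_self]
    have h2 : V.mkQ (p - (ev r d h p) • q0) = 0 := (Submodule.Quotient.mk_eq_zero V).2 h1
    rw [map_sub, map_smul] at h2
    exact sub_eq_zero.1 h2
  have hkill : ∀ k : ℂ[X], k.natDegree ≤ r → (∀ u ∈ V ⊓ Fi, ev r d k u = 0) →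
      ev r d k q0 = 0 → k = 0 := by
    intro k hk h1 h2
    by_contra hk0
    apply B_nondeg r k hk hk0
    have h3 : (⟨_, hXG k⟩ : Gam d) - (ev r d h ⟨_, hXG k⟩) • q0 ∈ V ⊓ Fi := by
      have h4 : (⟨_, hXG k⟩ : Gam d) - (ev r d h ⟨_, hXG k⟩) • q0 ∈ Fi :=
        Submodule.sub_mem _ (hXF k) (Submodule.smul_mem _ _ hq0F)
      refine ⟨hconv _ h4 ?_, h4⟩
      rw [map_sub, map_smul, hq01, smul_eq_mul, mul_one, sub_self]
    have h5 := h1 _ h3
    rw [map_sub, map_smul, h2, smul_zero, sub_zero] at h5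
    exact h5
  obtain ⟨ψ, hψ⟩ := exists_fun (K := ℂ) (M := Gam d ⧸ V) (V.mkQ q0) hz0
  -- values of elements of V under the pairing with h
  have hBV : ∀ v ∈ V, ∀ j, (B r (v : ℂ[X]) h).eval ((x j : ℝ) : ℂ) = 0 := by
    intro v hv j
    have hu : ∀ u ∈ V ⊓ Fi, B r (u : ℂ[X]) h = 0 := by
      intro u hu
      rw [B_const r _ h ((mem_vanInf hrd u).1 hu.2) hhd, ← ev_apply r d h u, hU u hu, C_0]
    obtain ⟨u, hu1, hu2⟩ := hsig j
    have hg : (B r (g : ℂ[X]) h).eval ((x j : ℝ) : ℂ) = 0 := by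
      have h1 := B_eval_zero_of_dvd r ((g - u : Gam d) : ℂ[X]) h _ ((mem_vanAt _ _).1 hu2)
      rw [Submodule.coe_sub, B_sub_left, hu u hu1, sub_zero] at h1
      exact h1
    obtain ⟨c, hc⟩ := hdec v hv
    have h2 := hu _ hc
    rw [Submodule.coe_sub, Submodule.coe_smul, B_sub_left, B_smul_left, sub_eq_zero] at h2
    rw [h2, eval_smul, hg, smul_zero]
  -- data of a tangent vector
  have hdata : ∀ φ ∈ tangentS r d x V, ∃ (gd : Gam d) (hd : ℂ[X]), hd.natDegree ≤ r ∧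
      V.mkQ gd = φ ⟨g, hgV⟩ ∧
      (∀ u (hu : u ∈ V ⊓ Fi), φ ⟨u, hu.1⟩ = (-(ev r d hd u)) • V.mkQ q0) ∧
      (∀ j, (B r (gd : ℂ[X]) h + B r (g : ℂ[X]) hd).eval ((x j : ℝ) : ℂ) = 0) := by
    intro φ hφ
    obtain ⟨hφ1, hφ2⟩ := Submodule.mem_inf.1 hφ
    have hφ2 : ∀ j, φ ∈ tangentTo (vanAt d (x j) (r + 1)) V := by
      intro j; exact (Submodule.mem_iInf _).1 hφ2 j
    have hφU : ∀ u (hu : u ∈ V ⊓ Fi), φ ⟨u, hu.1⟩ = ψ (φ ⟨u, hu.1⟩) • V.mkQ q0 := by
      intro u hu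
      obtain ⟨p, hp, hpe⟩ := Submodule.mem_map.1 (hφ1 ⟨u, hu.1⟩ hu.2)
      rw [← hpe, hFq p hp, map_smul, hψ, smul_eq_mul, mul_one]
    -- existence of hd
    obtain ⟨hd, hhdd, hhdu⟩ : ∃ hd : ℂ[X], hd.natDegree ≤ r ∧
        ∀ u (hu : u ∈ V ⊓ Fi), ev r d hd u = - ψ (φ ⟨u, hu.1⟩) := by
      let au : ↥(V ⊓ Fi) →ₗ[ℂ] ℂ := ψ ∘ₗ φ ∘ₗ (Submodule.inclusion (inf_le_left : V ⊓ Fi ≤ V))
      let L : (↥(degreeLT ℂ (r + 1)) × ℂ) →ₗ[ℂ] ((↥(V ⊓ Fi) × ℂ) →ₗ[ℂ] ℂ) :=
        LinearMap.mk₂ ℂ (fun m n => ev r d (m.1 : ℂ[X]) (n.1 : Gam d) + m.2 * au n.1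
            + n.2 * ev r d (m.1 : ℂ[X]) q0)
          (by
            intro a b n
            simp only [Prod.fst_add, Prod.snd_add, Submodule.coe_add, ev_apply, B_add_right,
              eval_add]; ring)
          (by
            intro c a n
            simp only [Prod.smul_fst, Prod.smul_snd, Submodule.coe_smul, ev_apply, B_smul_right,
              eval_smul, smul_eq_mul]; ring)
          (by
            intro a m n
            simp only [Prod.fst_add, Prod.snd_add, Submodule.coe_add, map_add]; ring)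
          (by
            intro c a n
            simp only [Prod.smul_fst, Prod.smul_snd, Submodule.coe_smul, map_smul, smul_eq_mul]
            ring)
      have hlt2 : finrank ℂ ↥(V ⊓ Fi) < finrank ℂ ↥(degreeLT ℂ (r + 1)) := by
        rw [hfr, finrank_degLT]; omega
      obtain ⟨⟨k, s⟩, hks0, hks⟩ := exists_kill2 (K := ℂ) (M := ↥(degreeLT ℂ (r + 1)))
        (N := ↥(V ⊓ Fi)) L hlt2
      have hL : ∀ n : (↥(V ⊓ Fi) × ℂ), ev r d (k : ℂ[X]) (n.1 : Gam d) + s * au n.1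
            + n.2 * ev r d (k : ℂ[X]) q0 = 0 := fun n => hks n
      have hkd : (k : ℂ[X]).natDegree ≤ r := (mem_degLT_iff r _).1 k.2
      have hkq : ev r d (k : ℂ[X]) q0 = 0 := by
        have := hL (0, 1)
        simpa using this
      have hku : ∀ u : ↥(V ⊓ Fi), ev r d (k : ℂ[X]) (u : Gam d) + s * au u = 0 := by
        intro u
        have := hL (u, 0)
        simpa using this
      have hs0 : s ≠ 0 := by
        intro hs0
        apply hks0
        have : (k : ℂ[X]) = 0 := by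
          apply hkill _ hkd _ hkq
          intro u hu
          have := hku ⟨u, hu⟩
          rw [hs0, zero_mul, add_zero] at this
          exact this
        rw [hs0]
        exact Prod.ext (Subtype.ext this) rfl
      refine ⟨s⁻¹ • (k : ℂ[X]), (natDegree_smul_le _ _).trans hkd, ?_⟩
      intro u hu
      have h1 := hku ⟨u, hu⟩
      have h2 : ev r d (s⁻¹ • (k : ℂ[X])) u = s⁻¹ * ev r d (k : ℂ[X]) u := by
        rw [ev_apply, B_smul_right, eval_smul, smul_eq_mul, ev_apply]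
      have h3 : au ⟨u, hu⟩ = ψ (φ ⟨u, hu.1⟩) := rfl
      rw [h2, ← h3]
      have h4 : ev r d (k : ℂ[X]) u = - (s * au ⟨u, hu⟩) := by
        rw [eq_neg_iff_add_eq_zero]; exact h1
      rw [h4]; field_simp
    obtain ⟨gd, hgd'⟩ := Submodule.mkQ_surjective V (φ ⟨g, hgV⟩)
    refine ⟨gd, hd, hhdd, hgd', ?_, ?_⟩
    · intro u hu
      rw [hhdu u hu, neg_neg]; exact hφU u hu
    · intro j
      obtain ⟨u, hu1, hu2⟩ := hsig j
      have hguV : g - u ∈ V := Submodule.sub_mem _ hgV hu1.1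
      obtain ⟨τ, hτ, hτe⟩ := Submodule.mem_map.1 (hφ2 j ⟨g - u, hguV⟩ hu2)
      have hsplit : φ ⟨g - u, hguV⟩ = V.mkQ gd - (ψ (φ ⟨u, hu1.1⟩)) • V.mkQ q0 := by
        have hadd : φ ⟨g - u, hguV⟩ + φ ⟨u, hu1.1⟩ = φ ⟨g, hgV⟩ := by
          rw [← map_add]; congr 1; apply Subtype.ext; simp
        rw [hgd', ← hφU u hu1, ← hadd, add_sub_cancel_right]
      rw [hsplit, ← map_smul, ← map_sub] at hτe
      have hmem : τ - (gd - (ψ (φ ⟨u, hu1.1⟩)) • q0) ∈ V := by
        have h0 : V.mkQ (τ - (gd - (ψ (φ ⟨u, hu1.1⟩)) • q0)) = 0 := by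
          rw [map_sub, hτe, sub_self]
        exact (Submodule.Quotient.mk_eq_zero V).1 h0
      have e1 := hBV _ hmem j
      have e2 := B_eval_zero_of_dvd r (τ : ℂ[X]) h _ ((mem_vanAt _ _).1 hτ)
      have e3 : B r (q0 : ℂ[X]) h = 1 := by
        rw [B_const r _ h ((mem_vanInf hrd q0).1 hq0F) hhd, ← ev_apply r d h q0, hq01, C_1]
      simp only [Submodule.coe_sub, Submodule.coe_smul, B_sub_left, B_smul_left, eval_sub,
        eval_smul, e2, e3, eval_one, smul_eq_mul, mul_one] at e1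
      have e4 := B_eval_zero_of_dvd r ((g - u : Gam d) : ℂ[X]) hd _ ((mem_vanAt _ _).1 hu2)
      rw [Submodule.coe_sub, B_sub_left, eval_sub] at e4
      have e5 : (B r (u : ℂ[X]) hd).eval ((x j : ℝ) : ℂ) = - ψ (φ ⟨u, hu1.1⟩) := by
        rw [B_const r _ hd ((mem_vanInf hrd u).1 hu1.2) hhdd, eval_C, ← ev_apply r d hd u]
        exact hhdu u hu1
      rw [eval_add]
      rw [e5] at e4
      linear_combination e4 - e1
  -- W
  set e : ℂ[X] := derivative^[r + 1] (g : ℂ[X]) with he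
  have he0 : e ≠ 0 := iterate_derivative_ne_zero r _ hgd
  have hGd : ∀ σ : Gam d, (σ : ℂ[X]).natDegree ≤ d := fun σ => (mem_degLT_iff d _).1 σ.2
  have hiter : ∀ σ : Gam d, (derivative^[r + 1] (σ : ℂ[X])).natDegree ≤ d - (r + 1) := by
    intro σ
    have h1 := natDegree_iterate_derivative (σ : ℂ[X]) (r + 1)
    have h2 := hGd σ
    omega
  obtain ⟨l0, hl0d, hl0⟩ := quot (by omega) x hx (B r (g : ℂ[X]) h)
    (B_natDegree r d (by omega) _ _ (hGd g) hhd) (hBV g hgV)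
  have hε : ((-1 : ℂ) ^ r) ≠ 0 := pow_ne_zero _ (by norm_num)
  have hdW : derivative (PC x * l0) = C ((-1 : ℂ) ^ r) * (e * h) := by
    rw [← hl0, B_derivative_of_le r _ h hhd]
  have hl00 : l0 ≠ 0 := by
    intro h0
    rw [h0, mul_zero, derivative_zero] at hdW
    exact mul_ne_zero (C_ne_zero.2 hε) (mul_ne_zero he0 hh0) hdW.symm
  apply finrank_le_one_of_dep
  intro φ1 hφ1 φ2 hφ2
  obtain ⟨g1, h1, hh1, hg1, hu1, hj1⟩ := hdata φ1 hφ1
  obtain ⟨g2, h2, hh2, hg2, hu2, hj2⟩ := hdata φ2 hφ2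
  have hdegs : ∀ (gd : Gam d) (hd : ℂ[X]), hd.natDegree ≤ r →
      (B r (gd : ℂ[X]) h + B r (g : ℂ[X]) hd).natDegree ≤ d := fun gd hd hhd' =>
    (natDegree_add_le _ _).trans (max_le (B_natDegree r d (by omega) _ _ (hGd gd) hhd)
      (B_natDegree r d (by omega) _ _ (hGd g) hhd'))
  obtain ⟨l1, hl1d, hl1⟩ := quot (by omega) x hx _ (hdegs g1 h1 hh1) hj1
  obtain ⟨l2, hl2d, hl2⟩ := quot (by omega) x hx _ (hdegs g2 h2 hh2) hj2
  have hder : ∀ (gd : Gam d) (hd l : ℂ[X]), hd.natDegree ≤ r →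
      B r (gd : ℂ[X]) h + B r (g : ℂ[X]) hd = PC x * l →
      derivative (PC x * l)
        = C ((-1 : ℂ) ^ r) * (derivative^[r + 1] (gd : ℂ[X]) * h + e * hd) := by
    intro gd hd l hhd' hl
    rw [← hl, derivative_add, B_derivative_of_le r _ h hhd, B_derivative_of_le r _ hd hhd']
    ring
  obtain ⟨a, b, s, κ, hab, hc1, hc2, hc3⟩ := core (PC x) e h r (d - (r + 1)) ((-1 : ℂ) ^ r) hε l0
    (by omega) (by rw [PC_natDegree]; omega) (fun c => sep_no (PC_separable x hx) c) hh0 he0 hhd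
    (hiter g) hl00 hl0d hdW (fun c c' => no_two (by omega) x hx l0 hl00 hl0d c c')
    (derivative^[r + 1] (g1 : ℂ[X])) h1 l1 (derivative^[r + 1] (g2 : ℂ[X])) h2 l2
    hh1 hh2 (hiter g1) (hiter g2) hl1d hl2d (hder g1 h1 l1 hh1 hl1) (hder g2 h2 l2 hh2 hl2)
  refine ⟨a, b, hab, ?_⟩
  -- the combination vanishes on V ∩ F
  have z1 : ∀ u (hu : u ∈ V ⊓ Fi), (a • φ1 + b • φ2) ⟨u, hu.1⟩ = 0 := by
    intro u hu
    rw [LinearMap.add_apply, LinearMap.smul_apply, LinearMap.smul_apply, hu1 u hu, hu2 u hu,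
      smul_smul, smul_smul, ← add_smul]
    have : a * -(ev r d h1 u) + b * -(ev r d h2 u) = 0 := by
      have k1 : ev r d (C a * h1 + C b * h2) u = a * ev r d h1 u + b * ev r d h2 u := by
        rw [ev_apply, B_add_right, ← smul_eq_C_mul, ← smul_eq_C_mul, B_smul_right, B_smul_right,
          eval_add, eval_smul, eval_smul, smul_eq_mul, smul_eq_mul, ev_apply, ev_apply]
      have k2 : ev r d (C κ * h) u = κ * ev r d h u := by
        rw [ev_apply, ← smul_eq_C_mul, B_smul_right, eval_smul, smul_eq_mul, ev_apply]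
      rw [hc1, k2, hU u hu, mul_zero] at k1
      linear_combination k1
    rw [this, zero_smul]
  have z2 : (a • φ1 + b • φ2) ⟨g, hgV⟩ = 0 := by
    rw [LinearMap.add_apply, LinearMap.smul_apply, LinearMap.smul_apply, ← hg1, ← hg2,
      ← map_smul, ← map_smul, ← map_add]
    set G : Gam d := a • g1 + b • g2 - s • g + κ • g with hG
    have hGc : (G : ℂ[X]) = C a * (g1 : ℂ[X]) + C b * (g2 : ℂ[X]) - C s * (g : ℂ[X])
        + C κ * (g : ℂ[X]) := by
      rw [hG]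
      simp only [Submodule.coe_add, Submodule.coe_sub, Submodule.coe_smul, smul_eq_C_mul]
    have hGit : derivative^[r + 1] (G : ℂ[X]) = 0 := by
      rw [hGc, iterate_map_add, iterate_map_sub, iterate_map_add]
      simp only [iterate_derivative_C_mul]
      linear_combination hc2
    have hGF : G ∈ Fi := (mem_vanInf hrd G).2 (natDegree_le_of_iter r _ hGit)
    have hGB : B r (G : ℂ[X]) h = 0 := by
      have m1 : B r (G : ℂ[X]) h = C a * B r (g1 : ℂ[X]) h + C b * B r (g2 : ℂ[X]) h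
          - C s * B r (g : ℂ[X]) h + C κ * B r (g : ℂ[X]) h := by
        rw [hG]
        simp only [Submodule.coe_add, Submodule.coe_sub, Submodule.coe_smul, B_add_left,
          B_sub_left, B_smul_left]
        simp only [smul_eq_C_mul]
      have m2 : C κ * B r (g : ℂ[X]) h = C a * B r (g : ℂ[X]) h1 + C b * B r (g : ℂ[X]) h2 := by
        rw [← smul_eq_C_mul, ← B_smul_right, smul_eq_C_mul, ← hc1, B_add_right, ← smul_eq_C_mul,
          ← smul_eq_C_mul, B_smul_right, B_smul_right, smul_eq_C_mul, smul_eq_C_mul]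
      rw [m1, m2]
      linear_combination C a * hl1 + C b * hl2 - C s * hl0 + PC x * hc3
    have hGV : G ∈ V := by
      apply hconv G hGF
      rw [ev_apply, hGB, eval_zero]
    have : a • g1 + b • g2 ∈ V := by
      have e : a • g1 + b • g2 = G + (s • g - κ • g) := by rw [hG]; abel
      rw [e]
      exact Submodule.add_mem _ hGV
        (Submodule.sub_mem _ (Submodule.smul_mem _ _ hgV) (Submodule.smul_mem _ _ hgV))
    exact (Submodule.Quotient.mk_eq_zero V).2 this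
  ext1 v
  obtain ⟨c, hc⟩ := hdec v.1 v.2
  have hv : v = ⟨v.1 - c • g, hc.1⟩ + c • ⟨g, hgV⟩ := by
    apply Subtype.ext; simp
  rw [hv, map_add, map_smul, z2, z1 _ hc]
  simp

end Pool.Agent.H638S
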