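import Mathlib

/-! The pairing whose value at a point is the Wronskian of a hyperplane of the polynomials of
degree at most r, together with one more polynomial. -/

namespace Pool.Agent.H638S

open Polynomial

/-- the pairing  sum over i of (-1)^i p^(i) h^(r-i)  -/
noncomputable def B (r : ℕ) (p h : ℂ[X]) : ℂ[X] :=
  ∑ i ∈ Finset.range (r + 1), C ((-1 : ℂ) ^ i) * (derivative^[i] p * derivative^[r - i] h)

theorem B_add_left (r : ℕ) (p q h : ℂ[X]) : B r (p + q) h = B r p h + B r q h := by
  simp only [B, ← Finset.sum_add_distrib]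
  apply Finset.sum_congr rfl
  intro i _
  rw [iterate_map_add]; ring

theorem B_add_right (r : ℕ) (p h k : ℂ[X]) : B r p (h + k) = B r p h + B r p k := by
  simp only [B, ← Finset.sum_add_distrib]
  apply Finset.sum_congr rfl
  intro i _
  rw [iterate_map_add]; ring

theorem B_smul_left (r : ℕ) (a : ℂ) (p h : ℂ[X]) : B r (a • p) h = a • B r p h := by
  simp only [B, Finset.smul_sum]
  apply Finset.sum_congr rfl
  intro i _
  rw [iterate_derivative_smul]
  simp only [smul_eq_C_mul]; ring

theorem B_smul_right (r : ℕ) (a : ℂ) (p h : ℂ[X]) : B r p (a • h) = a • B r p h := by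
  simp only [B, Finset.smul_sum]
  apply Finset.sum_congr rfl
  intro i _
  rw [iterate_derivative_smul]
  simp only [smul_eq_C_mul]; ring

/-- the pairing as a bilinear map -/
noncomputable def Bl (r : ℕ) : ℂ[X] →ₗ[ℂ] ℂ[X] →ₗ[ℂ] ℂ[X] :=
  LinearMap.mk₂ ℂ (B r) (B_add_left r) (B_smul_left r) (B_add_right r) (fun a p h => B_smul_right r a p h)

theorem Bl_apply (r : ℕ) (p h : ℂ[X]) : Bl r p h = B r p h := rfl

theorem B_sub_left (r : ℕ) (p q h : ℂ[X]) : B r (p - q) h = B r p h - B r q h := by
  rw [← Bl_apply, ← Bl_apply, ← Bl_apply, map_sub, LinearMap.sub_apply]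

theorem B_derivative (r : ℕ) (p h : ℂ[X]) :
    derivative (B r p h) = p * derivative^[r + 1] h
      + C ((-1 : ℂ) ^ r) * (derivative^[r + 1] p * h) := by
  set f : ℕ → ℂ[X] := fun i => C ((-1 : ℂ) ^ i) * (derivative^[i] p * derivative^[r + 1 - i] h)
    with hf
  have h1 : derivative (B r p h) = ∑ i ∈ Finset.range (r + 1), (f i - f (i + 1)) := by
    rw [B, map_sum]
    apply Finset.sum_congr rfl
    intro i hi
    have hi' : i ≤ r := Nat.lt_succ_iff.1 (Finset.mem_range.1 hi)
    have e1 : r + 1 - i = (r - i) + 1 := by omega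
    have e2 : r + 1 - (i + 1) = r - i := by omega
    simp only [hf, e1, e2]
    rw [derivative_C_mul, derivative_mul, ← Function.iterate_succ_apply' derivative i,
      ← Function.iterate_succ_apply' derivative (r - i), pow_succ (-1 : ℂ) i, C_mul, C_neg, C_1]
    ring
  rw [h1, Finset.sum_range_sub']
  simp only [hf]
  simp only [Function.iterate_zero, id, Nat.sub_zero, Nat.sub_self, pow_zero, C_1, one_mul,
    pow_succ, C_mul, C_neg]
  ring

theorem B_derivative_of_le (r : ℕ) (p h : ℂ[X]) (hh : h.natDegree ≤ r) :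
    derivative (B r p h) = C ((-1 : ℂ) ^ r) * (derivative^[r + 1] p * h) := by
  rw [B_derivative, iterate_derivative_eq_zero (Nat.lt_succ_iff.2 hh), mul_zero, zero_add]

theorem B_const (r : ℕ) (p h : ℂ[X]) (hp : p.natDegree ≤ r) (hh : h.natDegree ≤ r) :
    B r p h = C ((B r p h).eval 0) := by
  have : derivative (B r p h) = 0 := by
    rw [B_derivative_of_le r p h hh, iterate_derivative_eq_zero (Nat.lt_succ_iff.2 hp), zero_mul,
      mul_zero]
  have h2 := eq_C_of_natDegree_eq_zero (derivative_eq_zero.1 this)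
  conv_lhs => rw [h2]
  rw [coeff_zero_eq_eval_zero]

theorem B_eval_zero_of_dvd (r : ℕ) (p h : ℂ[X]) (x : ℂ) (hp : (X - C x) ^ (r + 1) ∣ p) :
    (B r p h).eval x = 0 := by
  rw [B, eval_finsetSum]
  apply Finset.sum_eq_zero
  intro i hi
  have hi' : i < r + 1 := Finset.mem_range.1 hi
  have h1 := pow_sub_dvd_iterate_derivative_of_pow_dvd i hp
  have h2 : (X - C x) ∣ derivative^[i] p :=
    dvd_trans (dvd_pow_self _ (by omega)) h1
  have h3 : (derivative^[i] p).eval x = 0 := by
    obtain ⟨k, hk⟩ := h2; rw [hk]; simp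
  simp [h3]

/-- nondegeneracy -/
theorem B_nondeg (r : ℕ) (h : ℂ[X]) (hh : h.natDegree ≤ r) (h0 : h ≠ 0) :
    (B r (X ^ (r - h.natDegree)) h).eval 0 ≠ 0 := by
  set k := h.natDegree with hk
  have hterm : ∀ i ∈ Finset.range (r + 1), i ≠ r - k →
      C ((-1 : ℂ) ^ i) * (derivative^[i] (X ^ (r - k) : ℂ[X]) * derivative^[r - i] h) = 0 := by
    intro i hi hne
    have hi' : i < r + 1 := Finset.mem_range.1 hi
    rcases lt_or_gt_of_ne hne with hlt | hgt
    · rw [iterate_derivative_eq_zero (p := h) (x := r - i) (by omega)]; simp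
    · rw [iterate_derivative_eq_zero (p := (X ^ (r - k) : ℂ[X])) (x := i)
        (by rw [natDegree_X_pow]; omega)]; simp
  rw [B, Finset.sum_eq_single (r - k) hterm
    (fun hn => absurd (Finset.mem_range.2 (by omega)) hn)]
  have e1 : r - (r - k) = k := by omega
  rw [e1]
  simp only [eval_mul, eval_C]
  refine mul_ne_zero (pow_ne_zero _ (by norm_num)) (mul_ne_zero ?_ ?_)
  · rw [iterate_derivative_X_pow_eq_smul]
    simp only [Nat.sub_self, pow_zero, eval_smul, eval_one, Nat.descFactorial_self]
    rw [smul_eq_mul, mul_one]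
    exact_mod_cast Nat.factorial_ne_zero _
  · rw [← coeff_zero_eq_eval_zero, coeff_iterate_derivative]
    simp only [zero_add, Nat.descFactorial_self, nsmul_eq_mul]
    refine mul_ne_zero (by exact_mod_cast Nat.factorial_ne_zero _) ?_
    rw [hk]
    exact fun e => h0 (leadingCoeff_eq_zero.1 e)

theorem iterate_derivative_ne_zero (r : ℕ) (g : ℂ[X]) (hg : r < g.natDegree) :
    derivative^[r + 1] g ≠ 0 := by
  intro h
  have h1 : (derivative^[r + 1] g).coeff (g.natDegree - (r + 1)) = 0 := by rw [h]; simp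
  rw [coeff_iterate_derivative] at h1
  have e : g.natDegree - (r + 1) + (r + 1) = g.natDegree := by omega
  rw [e, nsmul_eq_mul, mul_eq_zero] at h1
  rcases h1 with h1 | h1
  · have : (g.natDegree).descFactorial (r + 1) ≠ 0 := by
      rw [Ne, Nat.descFactorial_eq_zero_iff_lt]; omega
    exact this (by exact_mod_cast h1)
  · have : g = 0 := leadingCoeff_eq_zero.1 h1
    rw [this] at hg; simp at hg

end Pool.Agent.H638S
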