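import Pool.Agent.H638S.Roots

/-! The derivative of a polynomial with only real roots, none of multiplicity three. -/

namespace Pool.Agent.H638S

open Polynomial

/-- monic real polynomial with the given roots -/
noncomputable def WR (s : Multiset ℝ) : ℝ[X] := (s.map (fun a => X - C a)).prod

theorem WR_cons (y : ℝ) (s : Multiset ℝ) : WR (y ::ₘ s) = (X - C y) * WR s := by
  simp [WR]

theorem laguerre (s : Multiset ℝ) (a : ℝ) (h : a ∉ s) :
    (WR s).eval a ≠ 0 ∧
    0 ≤ ((derivative (WR s)).eval a) ^ 2 - (WR s).eval a * (derivative (derivative (WR s))).eval a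
    ∧ (s ≠ 0 → 0 < ((derivative (WR s)).eval a) ^ 2
      - (WR s).eval a * (derivative (derivative (WR s))).eval a) := by
  induction s using Multiset.induction with
  | empty => simp [WR]
  | cons y s ih =>
    have hy : a ≠ y := fun e => h (by rw [e]; exact Multiset.mem_cons_self _ _)
    have hs : a ∉ s := fun e => h (Multiset.mem_cons_of_mem e)
    obtain ⟨h1, h2, _⟩ := ih hs
    have hne : (WR (y ::ₘ s)).eval a ≠ 0 := by
      rw [WR_cons]; simp only [eval_mul, eval_sub, eval_X, eval_C]
      exact mul_ne_zero (sub_ne_zero.2 hy) h1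
    have key : ((derivative (WR (y ::ₘ s))).eval a) ^ 2
        - (WR (y ::ₘ s)).eval a * (derivative (derivative (WR (y ::ₘ s)))).eval a
        = ((WR s).eval a) ^ 2 + (a - y) ^ 2 * (((derivative (WR s)).eval a) ^ 2
          - (WR s).eval a * (derivative (derivative (WR s))).eval a) := by
      rw [WR_cons]
      simp only [derivative_mul, derivative_sub, derivative_X, derivative_C, derivative_add,
        eval_mul, eval_sub, eval_X, eval_C, eval_add, sub_zero, one_mul]
      ring
    have hpos : 0 < ((WR s).eval a) ^ 2 := by positivity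
    have hnn : 0 ≤ (a - y) ^ 2 * (((derivative (WR s)).eval a) ^ 2
          - (WR s).eval a * (derivative (derivative (WR s))).eval a) :=
      mul_nonneg (sq_nonneg _) h2
    refine ⟨hne, ?_, fun _ => ?_⟩
    · rw [key]; linarith
    · rw [key]; linarith

theorem real_case (s : Multiset ℝ) (hs : s ≠ 0) (h2 : ∀ y, s.count y ≤ 2) (c : ℂ)
    (h : (X - C c) ^ 2 ∣ derivative ((WR s).map Complex.ofRealHom)) : False := by
  set W : ℂ[X] := (WR s).map Complex.ofRealHom with hW
  have hWR0 : WR s ≠ 0 := by
    rw [WR]; exact (monic_multiset_prod_of_monic _ _ (fun a _ => monic_X_sub_C a)).ne_zero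
  have hWRd : (WR s).natDegree = Multiset.card s := by
    rw [WR, natDegree_multiset_prod_X_sub_C_eq_card]
  have hcard : 0 < Multiset.card s := Multiset.card_pos.2 hs
  have hW0 : W ≠ 0 := by
    intro h0; exact hWR0 ((Polynomial.map_eq_zero _).1 h0)
  have hWprod : W = ((s.map (fun a : ℝ => (a : ℂ))).map (fun a => X - C a)).prod := by
    rw [hW, WR, Polynomial.map_multiset_prod, Multiset.map_map, Multiset.map_map]
    congr 1
    apply Multiset.map_congr rfl
    intro a _
    simp
  have hroots : W.roots = s.map (fun a : ℝ => (a : ℂ)) := by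
    rw [hWprod, roots_multiset_prod_X_sub_C]
  have hWd : W.natDegree = Multiset.card s := by rw [hW, natDegree_map, hWRd]
  have hD0 : derivative W ≠ 0 := by
    rw [derivative_ne_zero]; omega
  by_cases hc : W.eval c = 0
  · have hm := derivative_rootMultiplicity_of_root (p := W) (t := c) hc
    have h3 : 2 ≤ rootMultiplicity c (derivative W) := (le_rootMultiplicity_iff hD0).2 h
    have h4 : rootMultiplicity c W ≤ 2 := by
      rw [← count_roots, hroots]
      by_cases hre : ∃ a : ℝ, (a : ℂ) = c
      · obtain ⟨a, ha⟩ := hre
        rw [← ha, Multiset.count_map_eq_count' _ _ Complex.ofReal_injective]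
        exact h2 a
      · rw [Multiset.count_eq_zero_of_notMem]
        · omega
        · intro hmem
          obtain ⟨a, _, ha⟩ := Multiset.mem_map.1 hmem
          exact hre ⟨a, ha⟩
    omega
  · -- c is real by Gauss-Lucas
    have hdc : (derivative W).eval c = 0 := by
      obtain ⟨k, hk⟩ := h; rw [hk]; simp
    have hddc : (derivative (derivative W)).eval c = 0 := by
      have := pow_sub_one_dvd_derivative_of_pow_dvd h
      obtain ⟨k, hk⟩ := this; rw [hk]; simp
    have hdeg : 0 < W.degree := natDegree_pos_iff_degree_pos.1 (by omega)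
    have hmem : c ∈ (derivative W).rootSet ℂ := by
      rw [mem_rootSet]; exact ⟨hD0, by rw [coe_aeval_eq_eval]; exact hdc⟩
    have hconv := rootSet_derivative_subset_convexHull_rootSet hdeg hmem
    have hsub : W.rootSet ℂ ⊆ {z : ℂ | z.im = 0} := by
      intro z hz
      rw [mem_rootSet, coe_aeval_eq_eval] at hz
      have hz' : z ∈ W.roots := (mem_roots hW0).2 hz.2
      rw [hroots] at hz'
      obtain ⟨a, _, ha⟩ := Multiset.mem_map.1 hz'
      rw [← ha]; simp
    have hcvx : Convex ℝ {z : ℂ | z.im = 0} := by
      intro z hz w hw a b _ _ _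
      change _ = _ at hz hw ⊢
      simp [hz, hw]
    have him : c.im = 0 := convexHull_min hsub hcvx hconv
    have hce : c = ((c.re : ℝ) : ℂ) := by apply Complex.ext <;> simp [him]
    have hns : c.re ∉ s := by
      intro hmem
      apply hc
      have : c ∈ W.roots := by
        rw [hroots, hce]; exact Multiset.mem_map_of_mem _ hmem
      exact (mem_roots hW0).1 this
    obtain ⟨_, _, hL⟩ := laguerre s c.re hns
    have hL := hL hs
    have e1 : (derivative (WR s)).eval c.re = 0 := by
      have : (derivative W).eval c = (((derivative (WR s)).eval c.re : ℝ) : ℂ) := by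
        rw [hW, derivative_map, hce]
        exact Polynomial.eval_map_apply (f := Complex.ofRealHom) _
      rw [hdc] at this
      exact_mod_cast this.symm
    have e2 : (derivative (derivative (WR s))).eval c.re = 0 := by
      have : (derivative (derivative W)).eval c
          = (((derivative (derivative (WR s))).eval c.re : ℝ) : ℂ) := by
        rw [hW, derivative_map, derivative_map, hce]
        exact Polynomial.eval_map_apply (f := Complex.ofRealHom) _
      rw [hddc] at this
      exact_mod_cast this.symm
    rw [e1, e2] at hL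
    simp at hL

theorem real_case_inf {n : ℕ} (hn : 0 < n) (x : Fin n → ℝ) (hx : Function.Injective x) (c : ℂ)
    (h : (X - C c) ^ 2 ∣ derivative (PC x)) : False := by
  have hWP : WR (Finset.univ.val.map x) = PR x := by
    rw [WR, Multiset.map_map]; rfl
  rw [← PR_map, ← hWP] at h
  refine real_case _ ?_ ?_ c h
  · intro h0
    have := congrArg Multiset.card h0
    simp at this; omega
  · intro y
    have : (Multiset.map x Finset.univ.val).Nodup := Multiset.Nodup.map hx Finset.univ.nodup
    exact le_trans (Multiset.nodup_iff_count_le_one.1 this y) one_le_two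

theorem real_case_fin {n : ℕ} (x : Fin n → ℝ) (hx : Function.Injective x) (t : ℝ) (c : ℂ)
    (h : (X - C c) ^ 2 ∣ derivative ((X - C (t : ℂ)) * PC x)) : False := by
  have hWP : WR (Finset.univ.val.map x) = PR x := by
    rw [WR, Multiset.map_map]; rfl
  have e : (X - C (t : ℂ)) * PC x = (WR (t ::ₘ Finset.univ.val.map x)).map Complex.ofRealHom := by
    rw [WR_cons, Polynomial.map_mul, hWP, PR_map]; simp
  rw [e] at h
  refine real_case _ (Multiset.cons_ne_zero) ?_ c h
  intro y
  have : (Multiset.map x Finset.univ.val).Nodup := Multiset.Nodup.map hx Finset.univ.nodup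
  have h1 := Multiset.nodup_iff_count_le_one.1 this y
  rw [Multiset.count_cons]
  split_ifs <;> omega

/-- For ell of degree at most one and nonzero, the derivative of P ell does not have two double
roots. -/
theorem no_two {n : ℕ} (hn : 0 < n) (x : Fin n → ℝ) (hx : Function.Injective x) (l : ℂ[X])
    (hl : l ≠ 0) (hld : l.natDegree ≤ 1) (c c' : ℂ)
    (h : ((X - C c) * (X - C c')) ^ 2 ∣ derivative (PC x * l)) : False := by
  have hsq : (X - C c) ^ 2 ∣ derivative (PC x * l) := dvd_trans (by rw [mul_pow]; exact dvd_mul_right _ _) h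
  rcases Nat.lt_or_ge l.natDegree 1 with h0 | h1
  · have hl0 : l = C (l.coeff 0) := eq_C_of_natDegree_eq_zero (by omega)
    have ha : l.coeff 0 ≠ 0 := by
      intro e; rw [e, C_0] at hl0; exact hl hl0
    rw [hl0, derivative_mul, derivative_C, mul_zero, add_zero] at hsq
    have := (isUnit_C.2 ha.isUnit).dvd_mul_right.1 hsq
    exact real_case_inf hn x hx c this
  · have hd1 : l.natDegree = 1 := le_antisymm hld h1
    have ha : l.coeff 1 ≠ 0 := by
      rw [← hd1]; exact fun e => hl (leadingCoeff_eq_zero.1 e)
    set t : ℂ := - l.coeff 0 / l.coeff 1 with ht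
    have hlt : l = C (l.coeff 1) * (X - C t) := by
      rw [ht, mul_sub, ← C_mul]
      have : l.coeff 1 * (-l.coeff 0 / l.coeff 1) = - l.coeff 0 := by field_simp
      rw [this, C_neg, sub_neg_eq_add]
      exact eq_X_add_C_of_natDegree_le_one hld
    have hder : derivative (PC x * l) = C (l.coeff 1) * derivative ((X - C t) * PC x) := by
      conv_lhs => rw [hlt]
      rw [← derivative_C_mul]
      congr 1; ring
    rw [hder] at h hsq
    have h' := (isUnit_C.2 ha.isUnit).dvd_mul_left.1 h
    have hsq' := (isUnit_C.2 ha.isUnit).dvd_mul_left.1 hsq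
    by_cases htr : starRingEnd ℂ t = t
    · obtain ⟨r, hr⟩ := Complex.conj_eq_iff_real.1 htr
      rw [hr] at hsq'
      exact real_case_fin x hx r c hsq'
    · exact nonreal_case x hx t htr c c' h'

end Pool.Agent.H638S
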