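import Mathlib

/-! Root counting for the derivative of a polynomial with one root off the real line. -/

namespace Pool.Agent.H638S

open Polynomial

/-- the polynomial with the given real roots, over the reals -/
noncomputable def PR {n : ℕ} (x : Fin n → ℝ) : ℝ[X] := ∏ j, (X - C (x j))

/-- the same polynomial over the complex numbers -/
noncomputable def PC {n : ℕ} (x : Fin n → ℝ) : ℂ[X] := ∏ j, (X - C ((x j : ℝ) : ℂ))

theorem PR_map {n : ℕ} (x : Fin n → ℝ) : (PR x).map Complex.ofRealHom = PC x := by
  simp [PR, PC, Polynomial.map_prod]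

theorem PR_ne {n : ℕ} (x : Fin n → ℝ) : PR x ≠ 0 := by
  rw [PR, Finset.prod_ne_zero_iff]; intro j _; exact X_sub_C_ne_zero _

theorem PC_ne {n : ℕ} (x : Fin n → ℝ) : PC x ≠ 0 := by
  rw [PC, Finset.prod_ne_zero_iff]; intro j _; exact X_sub_C_ne_zero _

theorem PR_natDegree {n : ℕ} (x : Fin n → ℝ) : (PR x).natDegree = n := by
  rw [PR, natDegree_prod _ _ (fun j _ => X_sub_C_ne_zero _)]; simp

theorem PC_natDegree {n : ℕ} (x : Fin n → ℝ) : (PC x).natDegree = n := by
  rw [PC, natDegree_prod _ _ (fun j _ => X_sub_C_ne_zero _)]; simp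

theorem PR_roots {n : ℕ} (x : Fin n → ℝ) : (PR x).roots = Finset.univ.val.map x := by
  have := Polynomial.roots_multiset_prod_X_sub_C (Finset.univ.val.map x)
  rw [← this]
  congr 1
  rw [PR, Multiset.map_map]
  rfl

theorem PC_separable {n : ℕ} (x : Fin n → ℝ) (hx : Function.Injective x) : (PC x).Separable := by
  rw [PC]
  apply separable_prod_X_sub_C_iff.2
  intro a b hab
  exact hx (by simpa using hab)

/-- A squarefree polynomial and its derivative have no common root. -/
theorem sep_no {P : ℂ[X]} (hP : P.Separable) (c : ℂ) (h0 : P.eval c = 0)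
    (h1 : (derivative P).eval c = 0) : False := by
  obtain ⟨a, b, hab⟩ := hP
  have := congrArg (eval c) hab
  simp [h0, h1] at this

theorem eval_conj (p : ℝ[X]) (z : ℂ) :
    (p.map Complex.ofRealHom).eval (starRingEnd ℂ z)
      = starRingEnd ℂ ((p.map Complex.ofRealHom).eval z) := by
  rw [eval_map, eval_map, Polynomial.eval₂_eq_sum, Polynomial.eval₂_eq_sum, Polynomial.sum,
    Polynomial.sum, map_sum]
  apply Finset.sum_congr rfl
  intro i _
  simp

/-- two roots of the derivative of (X - t) P, with t not real, are never conjugate -/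
theorem not_conj {n : ℕ} (x : Fin n → ℝ) (hx : Function.Injective x) (t : ℂ)
    (ht : starRingEnd ℂ t ≠ t) (z : ℂ)
    (h0 : (derivative ((X - C t) * PC x)).eval z = 0)
    (h1 : (derivative ((X - C t) * PC x)).eval (starRingEnd ℂ z) = 0) : False := by
  have e0 : (PC x).eval z + (z - t) * (derivative (PC x)).eval z = 0 := by
    simpa [derivative_mul] using h0
  have e1 : (PC x).eval (starRingEnd ℂ z)
      + (starRingEnd ℂ z - t) * (derivative (PC x)).eval (starRingEnd ℂ z) = 0 := by
    simpa [derivative_mul] using h1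
  have d : derivative (PC x) = (derivative (PR x)).map Complex.ofRealHom := by
    rw [← PR_map, derivative_map]
  rw [d, ← PR_map, eval_conj, eval_conj] at e1
  have e2 := congrArg (starRingEnd ℂ) e1
  simp only [map_add, map_mul, map_sub, Complex.conj_conj, map_zero] at e2
  rw [d, ← PR_map] at e0
  have e3 : (t - starRingEnd ℂ t) * ((derivative (PR x)).map Complex.ofRealHom).eval z = 0 := by
    linear_combination e2 - e0
  have e4 : ((derivative (PR x)).map Complex.ofRealHom).eval z = 0 := by
    rcases mul_eq_zero.1 e3 with h | h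
    · exact absurd (sub_eq_zero.1 h).symm ht
    · exact h
  have e5 : ((PR x).map Complex.ofRealHom).eval z = 0 := by rw [e4] at e0; simpa using e0
  rw [PR_map] at e5
  rw [← d] at e4
  exact sep_no (PC_separable x hx) z e5 e4

/-- If the square of D divides W' then D divides ((X - s) W)'' . -/
theorem dvd_second (W D : ℂ[X]) (s : ℂ) (h : D ^ 2 ∣ derivative W) :
    D ∣ derivative (derivative ((X - C s) * W)) := by
  have h1 : D ∣ derivative W := dvd_trans (dvd_pow_self D two_ne_zero) h
  have h2 : D ∣ derivative (derivative W) := by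
    have := pow_sub_one_dvd_derivative_of_pow_dvd h
    simpa using this
  have : derivative (derivative ((X - C s) * W))
      = (X - C s) * derivative (derivative W) + 2 * derivative W := by
    simp only [derivative_mul, derivative_sub, derivative_X, derivative_C, derivative_add]
    simp
    ring
  rw [this]
  exact (h2.mul_left _).add (h1.mul_left _)

/-- The key count: with t not real, the derivative of (X - t) P does not have two double roots. -/
theorem nonreal_case {n : ℕ} (x : Fin n → ℝ) (hx : Function.Injective x) (t : ℂ)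
    (ht : starRingEnd ℂ t ≠ t) (c c' : ℂ)
    (h : ((X - C c) * (X - C c')) ^ 2 ∣ derivative ((X - C t) * PC x)) : False := by
  set D : ℂ[X] := (X - C c) * (X - C c') with hD
  have hrc : (derivative ((X - C t) * PC x)).eval c = 0 := by
    obtain ⟨k, hk⟩ := h; rw [hk]; simp [hD]
  have hrc' : (derivative ((X - C t) * PC x)).eval c' = 0 := by
    obtain ⟨k, hk⟩ := h; rw [hk]; simp [hD]
  -- the real polynomial
  set q : ℝ[X] := X ^ 2 - C (2 * t.re) * X + C (t.re ^ 2 + t.im ^ 2) with hq
  have hqm : q.map Complex.ofRealHom = (X - C (starRingEnd ℂ t)) * (X - C t) := by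
    have e1 : (C t + C (starRingEnd ℂ t) : ℂ[X]) = C ((2 * t.re : ℝ) : ℂ) := by
      rw [← C_add]; congr 1; apply Complex.ext <;> simp; ring
    have e2 : (C t * C (starRingEnd ℂ t) : ℂ[X]) = C ((t.re ^ 2 + t.im ^ 2 : ℝ) : ℂ) := by
      rw [← C_mul]; congr 1; rw [Complex.mul_conj, Complex.normSq_apply]; congr 1; ring
    have : q.map Complex.ofRealHom
        = X ^ 2 - C ((2 * t.re : ℝ) : ℂ) * X + C ((t.re ^ 2 + t.im ^ 2 : ℝ) : ℂ) := by
      simp [hq]
    rw [this, ← e1, ← e2]; ring
  have hqd : q.natDegree = 2 := by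
    rw [hq]; compute_degree!
  have hq0 : q ≠ 0 := by intro h0; rw [h0] at hqd; simp at hqd
  set R : ℝ[X] := q * PR x with hR
  have hR0 : R ≠ 0 := mul_ne_zero hq0 (PR_ne x)
  have hRd : R.natDegree = n + 2 := by
    rw [hR, natDegree_mul hq0 (PR_ne x), hqd, PR_natDegree]; ring
  have hRroots : n ≤ Multiset.card R.roots := by
    rw [hR, roots_mul hR0, Multiset.card_add, PR_roots]; simp
  have hR1 := card_roots_le_derivative R
  have hR2 := card_roots_le_derivative (derivative R)
  set S : ℝ[X] := derivative (derivative R) with hS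
  have hSd : S.natDegree ≤ n := by
    have a := natDegree_derivative_le R
    have b := natDegree_derivative_le (derivative R)
    rw [hS]
    omega
  have hS0 : S ≠ 0 := by
    intro h0
    have a : (derivative R).natDegree = 0 := derivative_eq_zero.1 h0
    have b : (derivative R).natDegree = R.natDegree - 1 := by
      have := degree_derivative (p := R) (by omega)
      exact natDegree_eq_of_degree_eq_some this
    omega
  have hSm : S.map Complex.ofRealHom
      = derivative (derivative ((X - C (starRingEnd ℂ t)) * ((X - C t) * PC x))) := by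
    rw [hS, ← derivative_map, ← derivative_map, hR, Polynomial.map_mul, hqm, PR_map, mul_assoc]
  have hDS : D ∣ S.map Complex.ofRealHom := by
    rw [hSm]; exact dvd_second _ _ _ h
  -- roots of S over the complex numbers
  have rc : (S.map Complex.ofRealHom).eval c = 0 := by
    obtain ⟨k, hk⟩ := hDS; rw [hk]; simp [hD]
  have rc' : (S.map Complex.ofRealHom).eval c' = 0 := by
    obtain ⟨k, hk⟩ := hDS; rw [hk]; simp [hD]
  set Db : ℂ[X] := (X - C (starRingEnd ℂ c)) * (X - C (starRingEnd ℂ c')) with hDb
  have hDbS : Db ∣ S.map Complex.ofRealHom := by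
    have h1 : D.map (starRingEnd ℂ) ∣ (S.map Complex.ofRealHom).map (starRingEnd ℂ) :=
      Polynomial.map_dvd _ hDS
    have h2 : (S.map Complex.ofRealHom).map (starRingEnd ℂ) = S.map Complex.ofRealHom := by
      rw [Polynomial.map_map]; congr 1; ext a; simp
    have h3 : D.map (starRingEnd ℂ) = Db := by simp [hD, hDb]
    rwa [h2, h3] at h1
  -- the real part
  set Q : ℝ[X] := (S.roots.map (fun a => X - C a)).prod with hQ
  have hQS : Q ∣ S := Polynomial.prod_multiset_X_sub_C_dvd S
  have hQm : Q.map Complex.ofRealHom ∣ S.map Complex.ofRealHom := Polynomial.map_dvd _ hQS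
  have hQd : (Q.map Complex.ofRealHom).natDegree = Multiset.card S.roots := by
    rw [natDegree_map, hQ, natDegree_multiset_prod_X_sub_C_eq_card]
  have nc : ∀ z w : ℂ, (derivative ((X - C t) * PC x)).eval z = 0 →
      (derivative ((X - C t) * PC x)).eval w = 0 → w ≠ starRingEnd ℂ z := by
    intro z w hz hw e
    rw [e] at hw
    exact not_conj x hx t ht z hz hw
  have cop1 : IsCoprime D Db := by
    rw [hD, hDb]
    have k : ∀ z w : ℂ, z ≠ w → IsCoprime (X - C z : ℂ[X]) (X - C w) := fun z w hzw =>
      isCoprime_X_sub_C_of_isUnit_sub (sub_ne_zero.2 hzw).isUnit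
    refine IsCoprime.mul_left (IsCoprime.mul_right ?_ ?_) (IsCoprime.mul_right ?_ ?_)
    · exact k _ _ (nc c c hrc hrc)
    · exact k _ _ (nc c' c hrc' hrc)
    · exact k _ _ (nc c c' hrc hrc')
    · exact k _ _ (nc c' c' hrc' hrc')
  have cop2 : ∀ z : ℂ, starRingEnd ℂ z ≠ z →
      IsCoprime (Q.map Complex.ofRealHom) (X - C z : ℂ[X]) := by
    intro z hz
    apply IsCoprime.symm
    rw [(irreducible_X_sub_C z).coprime_iff_not_dvd]
    intro hd
    rw [dvd_iff_isRoot, hQ, IsRoot.def, eval_map, Polynomial.eval₂_multiset_prod] at hd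
    rw [Multiset.prod_eq_zero_iff] at hd
    simp only [Multiset.mem_map, exists_exists_and_eq_and] at hd
    obtain ⟨a, _, ha⟩ := hd
    have : z = (a : ℂ) := by
      have : z - (a : ℂ) = 0 := by simpa using ha
      exact sub_eq_zero.1 this
    apply hz
    rw [this]; simp
  have nz : starRingEnd ℂ c ≠ c := fun e => nc c c hrc hrc e.symm
  have nz' : starRingEnd ℂ c' ≠ c' := fun e => nc c' c' hrc' hrc' e.symm
  have cop3 : IsCoprime (Q.map Complex.ofRealHom) (D * Db) := by
    rw [hD, hDb]
    refine IsCoprime.mul_right (IsCoprime.mul_right (cop2 _ nz) (cop2 _ nz')) ?_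
    refine IsCoprime.mul_right (cop2 _ ?_) (cop2 _ ?_)
    · rw [Complex.conj_conj]; exact nz.symm
    · rw [Complex.conj_conj]; exact nz'.symm
  have hall : Q.map Complex.ofRealHom * (D * Db) ∣ S.map Complex.ofRealHom :=
    cop3.mul_dvd hQm (cop1.mul_dvd hDS hDbS)
  have hSm0 : S.map Complex.ofRealHom ≠ 0 := by
    intro h0
    exact hS0 ((Polynomial.map_eq_zero _).1 h0)
  have hdeg := natDegree_le_of_dvd hall hSm0
  have hQ0 : Q.map Complex.ofRealHom ≠ 0 := fun h0 => hSm0 (by
    rw [h0] at hQm; exact zero_dvd_iff.1 hQm)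
  have hD0 : D ≠ 0 := mul_ne_zero (X_sub_C_ne_zero _) (X_sub_C_ne_zero _)
  have hDb0 : Db ≠ 0 := mul_ne_zero (X_sub_C_ne_zero _) (X_sub_C_ne_zero _)
  have hDd : D.natDegree = 2 := by
    rw [hD, natDegree_mul (X_sub_C_ne_zero _) (X_sub_C_ne_zero _)]; simp
  have hDbd : Db.natDegree = 2 := by
    rw [hDb, natDegree_mul (X_sub_C_ne_zero _) (X_sub_C_ne_zero _)]; simp
  rw [natDegree_mul hQ0 (mul_ne_zero hD0 hDb0), natDegree_mul hD0 hDb0, hDd, hDbd, hQd,
    natDegree_map] at hdeg
  omega

end Pool.Agent.H638S
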