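import Pool.Agent.H638S.Defs
import Pool.Agent.H638S.Real
import Pool.Agent.H638S.Pair
import Pool.Agent.H638S.Core

/-! Structure of a point V of S. -/

namespace Pool.Agent.H638S

open Polynomial Module

theorem finrank_degLT (n : ℕ) : finrank ℂ (degreeLT ℂ n) = n := by
  rw [(degreeLTEquiv ℂ n).finrank_eq]; simp

instance finiteDegLT (n : ℕ) : Module.Finite ℂ (degreeLT ℂ n) :=
  Module.Finite.equiv (degreeLTEquiv ℂ n).symm

theorem mem_degLT_iff (r : ℕ) (p : ℂ[X]) : p ∈ degreeLT ℂ (r + 1) ↔ p.natDegree ≤ r := by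
  by_cases hp : p = 0
  · simp [hp]
  · rw [mem_degreeLT, ← natDegree_lt_iff_degree_lt hp]; exact Nat.lt_succ_iff

theorem mem_vanInf {d r : ℕ} (hrd : r + 1 ≤ d) (σ : Gam d) :
    σ ∈ vanInf d (d - r) ↔ (σ : ℂ[X]).natDegree ≤ r := by
  rw [← mem_degLT_iff, show r + 1 = d + 1 - (d - r) by omega]
  rfl

theorem mem_vanAt {d j : ℕ} (x : ℝ) (σ : Gam d) :
    σ ∈ vanAt d x j ↔ (X - C (x : ℂ)) ^ j ∣ (σ : ℂ[X]) := Ideal.mem_span_singleton

theorem finrank_vanInf {d r : ℕ} (hrd : r + 1 ≤ d) :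
    finrank ℂ (vanInf d (d - r)) = r + 1 := by
  have hle : degreeLT ℂ (d + 1 - (d - r)) ≤ Gam d := degreeLT_mono (by omega)
  have := (Submodule.comapSubtypeEquivOfLe hle).finrank_eq
  have h2 : finrank ℂ (vanInf d (d - r)) = finrank ℂ (degreeLT ℂ (d + 1 - (d - r))) := this
  rw [h2, finrank_degLT]; omega

theorem inter_zero {d r : ℕ} (hrd : r + 1 ≤ d) (x : ℝ) (σ : Gam d)
    (h1 : σ ∈ vanInf d (d - r)) (h2 : σ ∈ vanAt d x (r + 1)) : σ = 0 := by
  rw [mem_vanInf hrd] at h1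
  rw [mem_vanAt] at h2
  apply Subtype.ext
  apply Polynomial.eq_zero_of_dvd_of_natDegree_lt h2
  rw [natDegree_pow, natDegree_X_sub_C]; omega

/-- the functional given by pairing with h -/
noncomputable def ev (r d : ℕ) (h : ℂ[X]) : Gam d →ₗ[ℂ] ℂ :=
  (leval 0) ∘ₗ ((Bl r).flip h) ∘ₗ (Gam d).subtype

theorem ev_apply (r d : ℕ) (h : ℂ[X]) (σ : Gam d) : ev r d h σ = (B r (σ : ℂ[X]) h).eval 0 := rfl

theorem exists_kill {K M N : Type*} [Field K] [AddCommGroup M] [Module K M] [AddCommGroup N]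
    [Module K N] [FiniteDimensional K M] [FiniteDimensional K N] (L : M →ₗ[K] N →ₗ[K] K)
    (h : finrank K N < finrank K M) : ∃ m : M, m ≠ 0 ∧ ∀ n, L m n = 0 := by
  have hker : LinearMap.ker L ≠ ⊥ := by
    apply LinearMap.ker_ne_bot_of_finrank_lt
    rwa [Module.finrank_linearMap, finrank_self, mul_one]
  obtain ⟨m, hm, hm0⟩ := Submodule.exists_mem_ne_zero_of_ne_bot hker
  exact ⟨m, hm0, fun n => by rw [LinearMap.mem_ker.1 hm]; rfl⟩

/-- the structure of a point of S -/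
theorem setup (r d : ℕ) (hr : 1 ≤ r) (hrd : r + 1 ≤ d) (x : Fin (d - 1) → ℝ)
    (V : Submodule ℂ (Gam d)) (hV : InS r d x V) :
    ∃ (h : ℂ[X]) (g : Gam d), h ≠ 0 ∧ h.natDegree ≤ r ∧ g ∈ V ∧ r < (g : ℂ[X]).natDegree ∧
      (∀ u ∈ V ⊓ vanInf d (d - r), ev r d h u = 0) ∧
      (∀ p ∈ vanInf d (d - r), ev r d h p = 0 → p ∈ V) ∧
      (∀ v ∈ V, ∃ c : ℂ, v - c • g ∈ V ⊓ vanInf d (d - r)) ∧
      finrank ℂ ↥(V ⊓ vanInf d (d - r)) = r ∧
      (∀ j, ∃ u ∈ V ⊓ vanInf d (d - r), g - u ∈ vanAt d (x j) (r + 1)) ∧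
      (∀ j, finrank ℂ ↥(V ⊓ vanAt d (x j) (r + 1)) = 1) := by
  set Fi := vanInf d (d - r) with hFi
  have hFr : finrank ℂ Fi = r + 1 := finrank_vanInf hrd
  have hd : 0 < d - 1 := by omega
  have exσ : ∀ j, ∃ σ : Gam d, σ ∈ V ∧ σ ∈ vanAt d (x j) (r + 1) ∧ σ ≠ 0 := by
    intro j
    have h1 := hV.atFin j
    have : (V ⊓ vanAt d (x j) (r + 1)) ≠ ⊥ := by
      intro hb; rw [hb, finrank_bot] at h1; omega
    obtain ⟨σ, hσ, hσ0⟩ := Submodule.exists_mem_ne_zero_of_ne_bot this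
    exact ⟨σ, hσ.1, hσ.2, hσ0⟩
  -- dimension of V ∩ F
  have hnot : ¬ V ≤ Fi := by
    intro hle
    obtain ⟨σ, h1, h2, h3⟩ := exσ ⟨0, hd⟩
    exact h3 (inter_zero hrd _ σ (hle h1) h2)
  have hlt : finrank ℂ ↥(V ⊓ Fi) < finrank ℂ V := by
    apply Submodule.finrank_lt_finrank_of_lt
    exact lt_of_le_of_ne inf_le_left (fun e => hnot (by rw [← e]; exact inf_le_right))
  have hfr : finrank ℂ ↥(V ⊓ Fi) = r := by
    have h1 := hV.atInf
    rw [← hFi] at h1
    have h2 := hV.dim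
    omega
  -- existence of h
  obtain ⟨h, hh0, hhd, hhU⟩ : ∃ h : ℂ[X], h ≠ 0 ∧ h.natDegree ≤ r ∧
      ∀ u ∈ V ⊓ Fi, ev r d h u = 0 := by
    let L : degreeLT ℂ (r + 1) →ₗ[ℂ] (↥(V ⊓ Fi) →ₗ[ℂ] ℂ) :=
      { toFun := fun h => (ev r d (h : ℂ[X])) ∘ₗ (V ⊓ Fi).subtype
        map_add' := fun a b => by
          ext u
          simp only [LinearMap.comp_apply, LinearMap.add_apply, Submodule.subtype_apply, ev_apply,
            Submodule.coe_add, B_add_right, eval_add]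
        map_smul' := fun c a => by
          ext u
          simp only [LinearMap.comp_apply, LinearMap.smul_apply, Submodule.subtype_apply, ev_apply,
            Submodule.coe_smul, B_smul_right, eval_smul, RingHom.id_apply] }
    have hlt2 : finrank ℂ ↥(V ⊓ Fi) < finrank ℂ ↥(degreeLT ℂ (r + 1)) := by
      rw [hfr, finrank_degLT]; omega
    obtain ⟨h, hh0, hh⟩ := exists_kill (K := ℂ) (M := ↥(degreeLT ℂ (r + 1)))
      (N := ↥(V ⊓ Fi)) L hlt2
    refine ⟨h, fun e => hh0 (Subtype.ext e), (mem_degLT_iff r _).1 h.2, ?_⟩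
    intro u hu
    exact hh ⟨u, hu⟩
  -- converse
  have hconv : ∀ p ∈ Fi, ev r d h p = 0 → p ∈ V := by
    set K : Submodule ℂ (Gam d) := Fi ⊓ LinearMap.ker (ev r d h) with hK
    have hle : V ⊓ Fi ≤ K := fun u hu => ⟨hu.2, LinearMap.mem_ker.2 (hhU u hu)⟩
    have hX : (X ^ (r - h.natDegree) : ℂ[X]).natDegree ≤ r := by rw [natDegree_X_pow]; omega
    have hXG : (X ^ (r - h.natDegree) : ℂ[X]) ∈ Gam d :=
      (mem_degLT_iff d _).2 (hX.trans (by omega))
    have hXF : (⟨_, hXG⟩ : Gam d) ∈ Fi := (mem_vanInf hrd _).2 hX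
    have hXK : (⟨_, hXG⟩ : Gam d) ∉ K := by
      intro hm
      exact B_nondeg r h hhd hh0 (LinearMap.mem_ker.1 hm.2)
    have hKlt : finrank ℂ K < finrank ℂ Fi := by
      apply Submodule.finrank_lt_finrank_of_lt
      exact lt_of_le_of_ne inf_le_left (fun e => hXK (by rw [e]; exact hXF))
    have heq : V ⊓ Fi = K := Submodule.eq_of_le_of_finrank_le hle (by omega)
    intro p hp hep
    have : p ∈ V ⊓ Fi := by rw [heq]; exact ⟨hp, LinearMap.mem_ker.2 hep⟩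
    exact this.1
  -- g
  obtain ⟨g, hgV, hgF⟩ := SetLike.not_le_iff_exists.1 hnot
  have hgd : r < (g : ℂ[X]).natDegree := by
    by_contra hcon
    exact hgF ((mem_vanInf hrd g).2 (by omega))
  have hdec : ∀ v ∈ V, ∃ c : ℂ, v - c • g ∈ V ⊓ Fi := by
    have hS : (V ⊓ Fi) ⊔ Submodule.span ℂ {g} = V := by
      apply Submodule.eq_of_le_of_finrank_le
      · exact sup_le inf_le_left (by rw [Submodule.span_singleton_le_iff_mem]; exact hgV)
      · have : finrank ℂ ↥(V ⊓ Fi) < finrank ℂ ↥((V ⊓ Fi) ⊔ Submodule.span ℂ {g}) := by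
          apply Submodule.finrank_lt_finrank_of_lt
          refine lt_of_le_of_ne le_sup_left (fun e => ?_)
          have : g ∈ V ⊓ Fi := by
            rw [e]; exact Submodule.mem_sup_right (Submodule.mem_span_singleton_self g)
          exact hgF this.2
        have := hV.dim
        omega
    intro v hv
    rw [← hS] at hv
    obtain ⟨u, hu, w, hw, huw⟩ := Submodule.mem_sup.1 hv
    obtain ⟨c, hc⟩ := Submodule.mem_span_singleton.1 hw
    refine ⟨c, ?_⟩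
    rw [hc, ← huw, add_sub_cancel_right]; exact hu
  have hsig : ∀ j, ∃ u ∈ V ⊓ Fi, g - u ∈ vanAt d (x j) (r + 1) := by
    intro j
    obtain ⟨σ, h1, h2, h3⟩ := exσ j
    obtain ⟨c, hc⟩ := hdec σ h1
    have hc0 : c ≠ 0 := by
      intro hc0
      rw [hc0, zero_smul, sub_zero] at hc
      exact h3 (inter_zero hrd _ σ hc.2 h2)
    refine ⟨- (c⁻¹ • (σ - c • g)), Submodule.neg_mem _ (Submodule.smul_mem _ _ hc), ?_⟩
    have : g - -(c⁻¹ • (σ - c • g)) = c⁻¹ • σ := by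
      rw [smul_sub, smul_smul, inv_mul_cancel₀ hc0, one_smul]; abel
    rw [this]
    exact Submodule.smul_mem _ _ h2
  refine ⟨h, g, hh0, hhd, hgV, hgd, hhU, hconv, hdec, hfr, hsig, ?_⟩
  intro j
  apply le_antisymm _ (hV.atFin j)
  obtain ⟨u, hu, hgu⟩ := hsig j
  have hle : V ⊓ vanAt d (x j) (r + 1) ≤ Submodule.span ℂ {g - u} := by
    intro σ hσ
    obtain ⟨c, hc⟩ := hdec σ hσ.1
    rw [Submodule.mem_span_singleton]
    refine ⟨c, ?_⟩
    have h1 : σ - c • (g - u) ∈ Fi := by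
      have : σ - c • (g - u) = (σ - c • g) + c • u := by rw [smul_sub]; abel
      rw [this]
      exact Submodule.add_mem _ hc.2 (Submodule.smul_mem _ _ hu.2)
    have h2 : σ - c • (g - u) ∈ vanAt d (x j) (r + 1) :=
      Submodule.sub_mem _ hσ.2 (Submodule.smul_mem _ _ hgu)
    have := inter_zero hrd _ _ h1 h2
    exact (sub_eq_zero.1 this).symm
  exact (Submodule.finrank_mono hle).trans ((finrank_span_le_card _).trans (by simp))

end Pool.Agent.H638S
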