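import Mathlib

/-! Definitions used by the statement: the space of forms, the vanishing flags, the Schubert
intersection S and the dimension of its Zariski tangent space. -/

namespace Pool.Agent.H638S

open Polynomial Module

/-- The space Γ of binary forms of degree d, written as polynomials of degree at most d in the
affine coordinate. -/
noncomputable abbrev Gam (d : ℕ) : Submodule ℂ ℂ[X] := degreeLT ℂ (d + 1)

/-- `vanAt d x j` is the member F_j(x) of the vanishing flag at the real point x: the forms that
vanish to order at least j at x (the multiples of (X - x)^j). -/
noncomputable def vanAt (d : ℕ) (x : ℝ) (j : ℕ) : Submodule ℂ (Gam d) :=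
  ((Ideal.span {(X - C (x : ℂ)) ^ j}).restrictScalars ℂ).comap (Gam d).subtype

/-- `vanInf d j` is the member F_j(∞) of the vanishing flag at infinity: the forms that vanish to
order at least j at infinity, that is, whose affine polynomial has degree at most d - j. -/
noncomputable def vanInf (d j : ℕ) : Submodule ℂ (Gam d) :=
  (degreeLT ℂ (d + 1 - j)).comap (Gam d).subtype

/-- The dimension of a subspace. -/
noncomputable def dimOf {K M : Type*} [Field K] [AddCommGroup M] [Module K M]
    (V : Submodule K M) : ℕ := finrank K ↥V

/-- The dimension of V ∩ F. -/
noncomputable def meetDim {K M : Type*} [Field K] [AddCommGroup M] [Module K M]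
    (V F : Submodule K M) : ℕ := finrank K ↥(V ⊓ F)

/-- V is a point of the Schubert intersection S: V has dimension r + 1; the condition at infinity
is the partition with r parts equal to d - r - 1 (and last part 0), that is,
dim (V ∩ F_{d-r}(∞)) ≥ r; at each of the d - 1 real points x j the condition is one box, that is,
dim (V ∩ F_{r+1}(x j)) ≥ 1. -/
structure PointOfS (r d : ℕ) (x : Fin (d - 1) → ℝ) (V : Submodule ℂ (Gam d)) : Prop where
  dim : dimOf V = r + 1
  atInf : r ≤ meetDim V (vanInf d (d - r))
  atFin : ∀ j, 1 ≤ meetDim V (vanAt d (x j) (r + 1))

/-- The flag members in the conditions that define S: F_{d-r}(∞) and the F_{r+1}(x j). -/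
noncomputable def flagS (r d : ℕ) (x : Fin (d - 1) → ℝ) (i : Option (Fin (d - 1))) :
    Submodule ℂ (Gam d) :=
  i.elim (vanInf d (d - r)) fun j => vanAt d (x j) (r + 1)

/-- The tangent vectors φ : V → M/V of the Grassmannian at V that map V ∩ F into (F + V)/V. When
dim (V ∩ F) = k, this is the Zariski tangent space at V of the Schubert variety of all V' with
dim (V' ∩ F) ≥ k, and V is a smooth point of that Schubert variety. -/
def tangentAlong {K M : Type*} [Field K] [AddCommGroup M] [Module K M] (V F : Submodule K M) :
    Submodule K (V →ₗ[K] (M ⧸ V)) := (F.comap V.subtype).compatibleMaps (F.map V.mkQ)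

/-- The dimension of the intersection of a family of subspaces. -/
noncomputable def commonDim {K M ι : Type*} [Field K] [AddCommGroup M] [Module K M]
    (S : ι → Submodule K M) : ℕ := finrank K ↥(⨅ i, S i)

/-- The dimension of the intersection of the tangent spaces along the F i, that is, of the
Zariski tangent space at V of the scheme-theoretic intersection. -/
noncomputable def tangentDim {K M ι : Type*} [Field K] [AddCommGroup M] [Module K M]
    (V : Submodule K M) (F : ι → Submodule K M) : ℕ := commonDim fun i => tangentAlong V (F i)

end Pool.Agent.H638S
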